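import Pool.Agent.Lib_MP_1eadae_lu.UDefs
import Pool.Agent.Lib_LogRel.DC

/-!
# Piece SJ: tuples, counting version
-/

set_option autoImplicit false

namespace Pool.Agent.LogAll

open Polynomial Pool.Agent.LogRel

/-- if `ζ` is not a root of a polynomial with coefficients in the span of the family, then the
products with its powers are independent -/
theorem sj_indep {ι : Type} [Fintype ι] (w : ι → ℂ) (hw : LinearIndependent Qb w) (D : ℕ)
    (ζ : ℂ) (hbad : ¬ BadK (Submodule.span Qb (Set.range w)) D ζ) :
    LinearIndependent Qb (fun be : ι × Fin (D + 1) => w be.1 * ζ ^ (be.2 : ℕ)) := by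
  classical
  rw [Fintype.linearIndependent_iff]
  intro c hc
  let P : ℂ[X] := ∑ e : Fin (D + 1), Polynomial.C (∑ b, c (b, e) • w b) * X ^ (e : ℕ)
  have hcoeff : ∀ e : Fin (D + 1), P.coeff e = ∑ b, c (b, e) • w b := by
    intro e
    simp only [P, Polynomial.finsetSum_coeff, Polynomial.coeff_C_mul, Polynomial.coeff_X_pow]
    rw [Finset.sum_eq_single e]
    · simp
    · intro f _ hf
      have : (e : ℕ) ≠ (f : ℕ) := fun h => hf (Fin.ext h.symm)
      simp [this]
    · intro h; exact absurd (Finset.mem_univ _) h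
  have hmem : ∀ e : Fin (D + 1), (∑ b, c (b, e) • w b) ∈ Submodule.span Qb (Set.range w) :=
    fun e => Submodule.sum_mem _ fun b _ =>
      Submodule.smul_mem _ _ (Submodule.subset_span ⟨b, rfl⟩)
  have hdeg : P.natDegree ≤ D := by
    refine Polynomial.natDegree_sum_le_of_forall_le _ _ fun e _ => ?_
    refine le_trans (Polynomial.natDegree_C_mul_X_pow_le _ _) ?_
    have := e.2
    omega
  have hcoeff' : ∀ i, P.coeff i ∈ Submodule.span Qb (Set.range w) := by
    intro i
    by_cases hi : i < D + 1
    · have := hcoeff ⟨i, hi⟩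
      simp only at this
      rw [this]
      exact hmem _
    · rw [Polynomial.coeff_eq_zero_of_natDegree_lt (by omega)]
      exact Submodule.zero_mem _
  have heval : P.eval ζ = 0 := by
    simp only [P, Polynomial.eval_finsetSum, Polynomial.eval_mul, Polynomial.eval_C,
      Polynomial.eval_pow, Polynomial.eval_X]
    rw [Fintype.sum_prod_type_right] at hc
    rw [← hc]
    refine Finset.sum_congr rfl fun e _ => ?_
    rw [Finset.sum_mul]
    refine Finset.sum_congr rfl fun b _ => ?_
    rw [smul_mul_assoc]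
  have hP0 : P = 0 := by
    by_contra hP
    exact hbad ⟨P, hP, hdeg, hcoeff', heval⟩
  rintro ⟨b, e⟩
  have h1 := hcoeff e
  rw [hP0, Polynomial.coeff_zero] at h1
  exact (Fintype.linearIndependent_iff.1 hw (fun b => c (b, e)) h1.symm) b

/-- summation over the first coordinate and over the others -/
theorem sj_sum_piFinset_succ {r : ℕ} (s : Fin (r + 1) → Finset ℕ) (F : (Fin (r + 1) → ℕ) → ℝ) :
    ∑ a ∈ Fintype.piFinset s, F a =
      ∑ a0 ∈ s 0, ∑ v ∈ Fintype.piFinset (fun i : Fin r => s i.succ),
        F (Fin.cons (α := fun _ => ℕ) a0 v) := by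
  rw [← Finset.sum_product' (f := fun a0 v => F (Fin.cons (α := fun _ => ℕ) a0 v))]
  refine Finset.sum_nbij' (fun a => (a 0, fun i : Fin r => a i.succ))
    (fun p => Fin.cons (α := fun _ => ℕ) p.1 p.2) ?_ ?_ ?_ ?_ ?_
  · intro a ha
    rw [Fintype.mem_piFinset] at ha
    rw [Finset.mem_product]
    exact ⟨ha 0, Fintype.mem_piFinset.2 fun i => ha i.succ⟩
  · intro p hp
    rw [Finset.mem_product] at hp
    rw [Fintype.mem_piFinset]
    intro i
    refine Fin.cases ?_ (fun j => ?_) i
    · exact hp.1
    · exact (Fintype.mem_piFinset.1 hp.2) j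
  · intro a _
    funext i
    refine Fin.cases ?_ (fun j => ?_) i <;> rfl
  · intro p _
    rfl
  · intro a _
    congr 1
    funext i
    refine Fin.cases ?_ (fun j => ?_) i <;> rfl

theorem sj_card {α : Type} (s : Finset α) (p : α → Prop) [DecidablePred p] :
    (((s.filter p).card : ℕ) : ℝ) = ∑ a ∈ s, (if p a then (1 : ℝ) else 0) := by
  rw [Finset.card_filter]
  push_cast
  rfl

open Classical in
/-- As `joint` in Lib_MP_1eadae_lu/UG.lean, with counting instead of the weights 1 / a, and with
functions `l i` from a class Λ instead of the logarithm. -/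
theorem jointC (Λ : Set (ℕ → ℂ))
    (hU : ∀ (d D : ℕ) (ε : ℝ), 0 < ε → ∃ X₀ : ℕ, ∀ l ∈ Λ, ∀ (w : Fin d → ℂ) (x : ℕ), X₀ ≤ x →
      ((((Finset.Icc 1 x).filter (fun a =>
        BadK (Submodule.span Qb (Set.range w)) D (l a))).card : ℕ) : ℝ) ≤ ε * x)
    (d D r : ℕ) {ε : ℝ} (hε : 0 < ε) : ∃ X₀ : ℕ, ∀ l : Fin r → ℕ → ℂ, (∀ i, l i ∈ Λ) →
      ∀ w : Fin d → ℂ, LinearIndependent Qb w → ∀ x : Fin r → ℕ, (∀ i, X₀ ≤ x i) →
      ((((Fintype.piFinset fun i => Finset.Icc 1 (x i)).filter (fun a : Fin r → ℕ =>
        ¬ LinearIndependent Qb (fun be : Fin d × (Fin r → Fin (D + 1)) =>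
          w be.1 * ∏ i, l i (a i) ^ (be.2 i : ℕ)))).card : ℕ) : ℝ) ≤
        ε * ∏ i, (x i : ℝ) := by
  induction r generalizing d ε with
  | zero =>
    refine ⟨0, fun l _ w hw x _ => ?_⟩
    have hgood : ∀ a : Fin 0 → ℕ, LinearIndependent Qb (fun be : Fin d × (Fin 0 → Fin (D + 1)) =>
        w be.1 * ∏ i, l i (a i) ^ (be.2 i : ℕ)) := by
      intro a
      have h1 : (fun be : Fin d × (Fin 0 → Fin (D + 1)) =>
          w be.1 * ∏ i, l i (a i) ^ (be.2 i : ℕ)) = w ∘ Prod.fst := by
        funext be
        simp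
      rw [h1]
      refine hw.comp Prod.fst ?_
      rintro ⟨a, e⟩ ⟨b, f⟩ hab
      exact Prod.ext hab (Subsingleton.elim _ _)
    rw [sj_card, Finset.sum_eq_zero]
    · rw [Finset.univ_eq_empty, Finset.prod_empty, mul_one]
      exact hε.le
    · intro a _
      exact if_neg fun h => h (hgood a)
  | succ r ih =>
    obtain ⟨R1, hR1⟩ := hU d D (ε / 2) (by positivity)
    obtain ⟨R2, hR2⟩ := ih (d * (D + 1)) (ε := ε / 2) (by positivity)
    refine ⟨R1 + R2, fun l hl w hw x hx => ?_⟩
    have hx1 : ∀ i, R1 ≤ x i := fun i => le_trans (Nat.le_add_right _ _) (hx i)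
    have hx2 : ∀ i, R2 ≤ x i := fun i => le_trans (Nat.le_add_left _ _) (hx i)
    set PL : ℝ := ∏ i : Fin r, (x i.succ : ℝ) with hPL
    have hPL0 : 0 ≤ PL := Finset.prod_nonneg fun i _ => Nat.cast_nonneg _
    rw [sj_card, sj_sum_piFinset_succ, Fin.prod_univ_succ, ← hPL]
    have hI : ∀ p : Prop, ∀ _ : Decidable p, (0 : ℝ) ≤ (if p then (1 : ℝ) else 0) := by
      intro p _
      split_ifs <;> norm_num
    have hI1 : ∀ p : Prop, ∀ _ : Decidable p, (if p then (1 : ℝ) else 0) ≤ 1 := by
      intro p _
      split_ifs <;> norm_num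
    have hin : ∀ a0 ∈ Finset.Icc 1 (x 0),
        ∑ v ∈ Fintype.piFinset (fun i : Fin r => Finset.Icc 1 (x i.succ)),
          (if ¬ LinearIndependent Qb (fun be : Fin d × (Fin (r + 1) → Fin (D + 1)) =>
            w be.1 * ∏ i, l i ((Fin.cons (α := fun _ => ℕ) a0 v : Fin (r + 1) → ℕ) i) ^
              (be.2 i : ℕ)) then (1 : ℝ) else 0) ≤
          (if BadK (Submodule.span Qb (Set.range w)) D (l 0 a0) then (1 : ℝ) else 0) * PL +
            ε / 2 * PL := by
      intro a0 _
      have h4 : 0 ≤ ε / 2 * PL := by positivity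
      by_cases ha0 : BadK (Submodule.span Qb (Set.range w)) D (l 0 a0)
      · rw [if_pos ha0, one_mul]
        refine le_trans (Finset.sum_le_sum fun v _ => hI1 _ _) ?_
        rw [Finset.sum_const, nsmul_eq_mul, mul_one, Fintype.card_piFinset]
        simp only [Nat.card_Icc, Nat.add_sub_cancel]
        push_cast
        rw [← hPL]
        linarith
      · rw [if_neg ha0, zero_mul, zero_add]
        have hli := sj_indep w hw D (l 0 a0) ha0
        have hli2 := hli.comp (finProdFinEquiv (m := d) (n := D + 1)).symm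
          (finProdFinEquiv (m := d) (n := D + 1)).symm.injective
        have h1 := hR2 (fun i => l i.succ) (fun i => hl i.succ) _ hli2 (fun i => x i.succ)
          (fun i => hx2 i.succ)
        rw [sj_card] at h1
        refine le_trans (Finset.sum_le_sum fun v _ => ?_) h1
        by_cases hv : LinearIndependent Qb
            (fun be : Fin (d * (D + 1)) × (Fin r → Fin (D + 1)) =>
                  ((fun be : Fin d × Fin (D + 1) => w be.1 * l 0 a0 ^ (be.2 : ℕ)) ∘
                    (finProdFinEquiv (m := d) (n := D + 1)).symm) be.1 *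
                      ∏ i, l i.succ (v i) ^ (be.2 i : ℕ))
        · rw [if_neg]
          · exact hI _ _
          · intro hcon
            refine hcon ?_
            let e : Fin d × (Fin (r + 1) → Fin (D + 1)) →
                Fin (d * (D + 1)) × (Fin r → Fin (D + 1)) :=
              fun be => (finProdFinEquiv (be.1, be.2 0), fun i => be.2 i.succ)
            have he : Function.Injective e := by
              rintro ⟨b, f⟩ ⟨b', f'⟩ h
              simp only [e, Prod.mk.injEq, EmbeddingLike.apply_eq_iff_eq] at h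
              obtain ⟨⟨h1, h2⟩, h3⟩ := h
              refine Prod.ext h1 ?_
              funext i
              refine Fin.cases ?_ (fun j => ?_) i
              · exact h2
              · exact congrFun h3 j
            have h3 := hv.comp e he
            have h4 : (fun be : Fin d × (Fin (r + 1) → Fin (D + 1)) =>
                w be.1 * ∏ i, l i ((Fin.cons (α := fun _ => ℕ) a0 v : Fin (r + 1) → ℕ) i) ^
                    (be.2 i : ℕ)) =
                (fun be : Fin (d * (D + 1)) × (Fin r → Fin (D + 1)) =>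
                ((fun be : Fin d × Fin (D + 1) => w be.1 * l 0 a0 ^ (be.2 : ℕ)) ∘
                  (finProdFinEquiv (m := d) (n := D + 1)).symm) be.1 *
                    ∏ i, l i.succ (v i) ^ (be.2 i : ℕ)) ∘ e := by
              funext be
              simp only [Function.comp_apply, e, Fin.prod_univ_succ, Fin.cons_zero,
                Fin.cons_succ, Equiv.symm_apply_apply]
              ring
            rw [h4]
            exact h3
        · rw [if_pos hv]
          exact hI1 _ _
    refine le_trans (Finset.sum_le_sum hin) ?_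
    rw [Finset.sum_add_distrib, ← Finset.sum_mul, Finset.sum_const, Nat.card_Icc,
      Nat.add_sub_cancel, nsmul_eq_mul]
    have h1 := hR1 (l 0) (hl 0) w (x 0) (hx1 0)
    rw [sj_card] at h1
    have h3 := mul_le_mul_of_nonneg_right h1 hPL0
    calc _ ≤ ε / 2 * (x 0 : ℝ) * PL + (x 0 : ℝ) * (ε / 2 * PL) := by linarith
      _ = ε * ((x 0 : ℝ) * PL) := by ring

end Pool.Agent.LogAll
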