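import Pool.Agent.Lib_MP_1eadae_ls.SF
import Pool.Agent.Lib_MP_1eadae_ls.SJ
import Pool.Agent.Lib_MP_1eadae_la.LogP

/-!
# Natural density: the final theorem
-/

set_option autoImplicit false

namespace Pool.Agent.LogAll

open Polynomial Pool.Agent.LogRel

open Classical in
theorem tuples_nat (d D r : ℕ) {ε : ℝ} (hε : 0 < ε) : ∃ X₀ : ℕ, ∀ l : Fin r → ℕ → ℂ,
    (∀ i, l i ∈ LogFun) →
      ∀ w : Fin d → ℂ, LinearIndependent Qb w → ∀ x : Fin r → ℕ, (∀ i, X₀ ≤ x i) →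
      ((((Fintype.piFinset fun i => Finset.Icc 1 (x i)).filter (fun a : Fin r → ℕ =>
        ¬ LinearIndependent Qb (fun be : Fin d × (Fin r → Fin (D + 1)) =>
          w be.1 * ∏ i, l i (a i) ^ (be.2 i : ℕ)))).card : ℕ) : ℝ) ≤
        ε * ∏ i, (x i : ℝ) :=
  jointC LogFun one_fun d D r hε

theorem log_mem_LogFun : (fun a : ℕ => Complex.log (a : ℂ)) ∈ LogFun :=
  ⟨fun _ _ ha hb => clog_mul ha hb, linInd_log, fun _ hp => isAlgebraic_exp_clog hp.pos⟩

end Pool.Agent.LogAll
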