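import Mathlib

/-!
# Piece SA: concentration of subset sums (Littlewood, Offord, Erdos)
-/

set_option autoImplicit false

namespace Pool.Agent.LogAll

private theorem choose_mid_sq (t : ℕ) : (t.choose (t / 2)) ^ 2 * t ≤ 4 ^ t := by
  have h : ∀ m : ℕ, (Nat.centralBinom m) ^ 2 * (2 * m + 1) ≤ 16 ^ m := by
    intro m
    induction m with
    | zero => simp
    | succ n ih =>
      have h1 := Nat.succ_mul_centralBinom_succ n
      have h2 : (n + 1) ^ 2 * (Nat.centralBinom (n + 1) ^ 2 * (2 * (n + 1) + 1)) ≤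
          (n + 1) ^ 2 * 16 ^ (n + 1) := by
        calc (n + 1) ^ 2 * (Nat.centralBinom (n + 1) ^ 2 * (2 * (n + 1) + 1))
            = ((n + 1) * Nat.centralBinom (n + 1)) ^ 2 * (2 * (n + 1) + 1) := by ring
          _ = (2 * (2 * n + 1) * Nat.centralBinom n) ^ 2 * (2 * (n + 1) + 1) := by rw [h1]
          _ = (Nat.centralBinom n ^ 2 * (2 * n + 1)) * (4 * ((2 * n + 1) * (2 * n + 3))) := by ring
          _ ≤ 16 ^ n * (4 * (4 * (n + 1) ^ 2)) := Nat.mul_le_mul ih (by nlinarith)
          _ = (n + 1) ^ 2 * 16 ^ (n + 1) := by ring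
      exact Nat.le_of_mul_le_mul_left h2 (by positivity)
  rcases Nat.even_or_odd' t with ⟨m, rfl | rfl⟩
  · have h1 : 2 * m / 2 = m := by omega
    rw [h1, ← Nat.centralBinom_eq_two_mul_choose, pow_mul]
    exact (Nat.mul_le_mul_left _ (by omega)).trans (h m)
  · have h1 : (2 * m + 1) / 2 = m := by omega
    rw [h1]
    have h2 : (2 * m + 1).choose m ≤ 2 * Nat.centralBinom m := by
      rcases m with _ | k
      · simp
      · have a1 := Nat.choose_le_centralBinom k (k + 1)
        have a2 := Nat.choose_le_centralBinom (k + 1) (k + 1)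
        rw [Nat.choose_succ_succ' (2 * (k + 1)) k]
        omega
    calc (2 * m + 1).choose m ^ 2 * (2 * m + 1) ≤ (2 * Nat.centralBinom m) ^ 2 * (2 * m + 1) := by
          gcongr
      _ = 4 * (Nat.centralBinom m ^ 2 * (2 * m + 1)) := by ring
      _ ≤ 4 * 16 ^ m := Nat.mul_le_mul_left _ (h m)
      _ = 4 ^ (2 * m + 1) := by
          rw [pow_succ 4 (2 * m), pow_mul]
          norm_num
          ring

private theorem card_fib_le {α : Type} [Fintype α] (g : α → ℚ) (hg : ∀ i, g i ≠ 0)
    (c : ℚ) : ((Finset.univ : Finset (Finset α)).filter (fun S => ∑ i ∈ S, g i = c)).card ≤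
      (Fintype.card α).choose (Fintype.card α / 2) := by
  classical
  set N : Finset α := Finset.univ.filter (fun i => g i < 0) with hN
  have hinj : Function.Injective (fun S : Finset α => symmDiff S N) := symmDiff_left_injective N
  rw [← Finset.card_image_of_injective _ hinj]
  apply IsAntichain.sperner
  have key : ∀ S : Finset α, ∑ i ∈ symmDiff S N, |g i| = ∑ i ∈ S, g i - ∑ i ∈ N, g i := by
    intro S
    have e1 : ∑ i ∈ symmDiff S N, |g i| = ∑ i ∈ S \ N, |g i| + ∑ i ∈ N \ S, |g i| := by
      have : symmDiff S N = (S \ N) ∪ (N \ S) := rfl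
      rw [this]
      exact Finset.sum_union disjoint_sdiff_sdiff
    have e2 : ∑ i ∈ S \ N, |g i| = ∑ i ∈ S \ N, g i := by
      refine Finset.sum_congr rfl fun i hi => abs_of_nonneg ?_
      by_contra hlt
      exact (Finset.mem_sdiff.1 hi).2 (Finset.mem_filter.2 ⟨Finset.mem_univ _, not_le.1 hlt⟩)
    have e3 : ∑ i ∈ N \ S, |g i| = - ∑ i ∈ N \ S, g i := by
      rw [← Finset.sum_neg_distrib]
      refine Finset.sum_congr rfl fun i hi => abs_of_neg ?_
      exact (Finset.mem_filter.1 (Finset.mem_sdiff.1 hi).1).2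
    have e4 := Finset.sum_inter_add_sum_sdiff S N g
    have e5 := Finset.sum_inter_add_sum_sdiff N S g
    rw [Finset.inter_comm] at e5
    rw [e1, e2, e3]
    linarith
  intro A hA B hB hAB hsub
  obtain ⟨S, hS, rfl⟩ := Finset.mem_image.1 (Finset.mem_coe.1 hA)
  obtain ⟨S', hS', rfl⟩ := Finset.mem_image.1 (Finset.mem_coe.1 hB)
  have k1 := key S
  have k2 := key S'
  rw [(Finset.mem_filter.1 hS).2] at k1
  rw [(Finset.mem_filter.1 hS').2] at k2
  obtain ⟨x, hx1, hx2⟩ := Finset.exists_of_ssubset (Finset.ssubset_iff_subset_ne.2 ⟨hsub, hAB⟩)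
  have := Finset.sum_lt_sum_of_subset (f := fun i => |g i|) hsub hx1 hx2 (abs_pos.2 (hg x))
    (fun j _ _ => abs_nonneg _)
  rw [k1, k2] at this
  exact lt_irrefl _ this

open Classical in
/-- Among the subsets of `range z` few have a given sum, if many `f i` are nonzero. Proof: take a
linear functional `V → ℚ` which is nonzero at all nonzero `f i`, i < z; so V = ℚ. Fix the part of S
among the i with f i = 0; for the others replace S by its symmetric difference with
{i | f i < 0}: the sets with sum c become an antichain, `IsAntichain.sperner` gives at most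
t.choose (t / 2) of them, t the number of the nonzero f i, and t.choose (t / 2) / 2 ^ t tends to 0
(`Nat.succ_mul_centralBinom_succ`: (centralBinom m / 4 ^ m) ^ 2 * (2 m + 1) ≤ 1 by induction). -/
theorem concS {q : ℝ} (hq : 0 < q) : ∃ t₀ : ℕ, ∀ (z : ℕ) (V : Type) [AddCommGroup V] [Module ℚ V]
    (f : ℕ → V) (c : V), t₀ ≤ ((Finset.range z).filter (fun i => f i ≠ 0)).card →
      ((((Finset.range z).powerset.filter (fun S => ∑ i ∈ S, f i = c)).card : ℕ) : ℝ) <
        q * 2 ^ z := by
  classical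
  obtain ⟨t₀, ht₀⟩ := exists_nat_gt (1 / q ^ 2)
  refine ⟨t₀, fun z V _ _ f c ht => ?_⟩
  set T := (Finset.range z).filter (fun i => f i ≠ 0) with hT
  have hTz : T ⊆ Finset.range z := Finset.filter_subset _ _
  have hTc : T.card ≤ z := by
    have := Finset.card_le_card hTz
    rwa [Finset.card_range] at this
  obtain ⟨φ, hφ⟩ := Module.exists_dual_forall_apply_ne_zero (K := ℚ)
    (fun i : {x // x ∈ T} => f i.1) (fun i => (Finset.mem_filter.1 i.2).2)
  have h1 : (T.powerset.filter (fun S => ∑ i ∈ S, f i = c)).card ≤ T.card.choose (T.card / 2) := by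
    have h2 := card_fib_le (fun i : {x // x ∈ T} => φ (f i.1)) hφ (φ c)
    rw [Fintype.card_coe] at h2
    refine le_trans (Finset.card_le_card_of_injOn (fun S => S.subtype (· ∈ T)) ?_ ?_) h2
    · intro S hS
      obtain ⟨hS1, hS2⟩ := Finset.mem_filter.1 (Finset.mem_coe.1 hS)
      rw [Finset.mem_powerset] at hS1
      refine Finset.mem_coe.2 (Finset.mem_filter.2 ⟨Finset.mem_univ _, ?_⟩)
      rw [Finset.sum_subtype_eq_sum_filter (fun i => φ (f i)),
        Finset.filter_true_of_mem (fun x hx => hS1 hx), ← map_sum, hS2]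
    · intro S hS S' hS' he
      have hS1 := Finset.mem_powerset.1 (Finset.mem_filter.1 (Finset.mem_coe.1 hS)).1
      have hS1' := Finset.mem_powerset.1 (Finset.mem_filter.1 (Finset.mem_coe.1 hS')).1
      ext x
      constructor
      · intro hx
        have : (⟨x, hS1 hx⟩ : {x // x ∈ T}) ∈ S.subtype (· ∈ T) := Finset.mem_subtype.2 hx
        rw [show S.subtype (· ∈ T) = S'.subtype (· ∈ T) from he] at this
        exact Finset.mem_subtype.1 this
      · intro hx
        have : (⟨x, hS1' hx⟩ : {x // x ∈ T}) ∈ S'.subtype (· ∈ T) := Finset.mem_subtype.2 hx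
        rw [← show S.subtype (· ∈ T) = S'.subtype (· ∈ T) from he] at this
        exact Finset.mem_subtype.1 this
  have h3 : ((Finset.range z).powerset.filter (fun S => ∑ i ∈ S, f i = c)).card ≤
      2 ^ (z - T.card) * (T.powerset.filter (fun S => ∑ i ∈ S, f i = c)).card := by
    have e0 : ((Finset.range z \ T).powerset).card = 2 ^ (z - T.card) := by
      rw [Finset.card_powerset, Finset.card_sdiff_of_subset hTz, Finset.card_range]
    rw [← e0, ← Finset.card_product]
    refine Finset.card_le_card_of_injOn (fun S => (S \ T, S ∩ T)) ?_ ?_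
    · intro S hS
      obtain ⟨hS1, hS2⟩ := Finset.mem_filter.1 (Finset.mem_coe.1 hS)
      rw [Finset.mem_powerset] at hS1
      refine Finset.mem_coe.2 (Finset.mem_product.2 ⟨?_, ?_⟩)
      · exact Finset.mem_powerset.2 (Finset.sdiff_subset_sdiff hS1 (le_refl _))
      · refine Finset.mem_filter.2 ⟨Finset.mem_powerset.2 Finset.inter_subset_right, ?_⟩
        have e1 := Finset.sum_inter_add_sum_sdiff S T f
        have e2 : ∑ i ∈ S \ T, f i = 0 := by
          refine Finset.sum_eq_zero fun i hi => ?_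
          by_contra hne
          exact (Finset.mem_sdiff.1 hi).2 (Finset.mem_filter.2 ⟨hS1 (Finset.mem_sdiff.1 hi).1, hne⟩)
        rw [e2, add_zero, hS2] at e1
        exact e1
    · intro S _ S' _ he
      have e1 : S \ T = S' \ T := congrArg Prod.fst he
      have e2 : S ∩ T = S' ∩ T := congrArg Prod.snd he
      rw [← Finset.sdiff_union_inter S T, ← Finset.sdiff_union_inter S' T, e1, e2]
  have h4 := choose_mid_sq T.card
  have h5 : (((T.card).choose (T.card / 2) : ℕ) : ℝ) ^ 2 * T.card ≤ 4 ^ T.card := by exact_mod_cast h4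
  have hTt : (1 : ℝ) / q ^ 2 < T.card := lt_of_lt_of_le ht₀ (by exact_mod_cast ht)
  have hT0 : (0 : ℝ) < T.card := lt_trans (by positivity) hTt
  have h6 : (1 : ℝ) < T.card * q ^ 2 := by
    rwa [div_lt_iff₀ (by positivity)] at hTt
  have h7 : (((T.card).choose (T.card / 2) : ℕ) : ℝ) < q * 2 ^ T.card := by
    apply lt_of_pow_lt_pow_left₀ 2 (by positivity)
    have e : (q * 2 ^ T.card : ℝ) ^ 2 = q ^ 2 * 4 ^ T.card := by
      rw [mul_pow, ← pow_mul, mul_comm T.card 2, pow_mul]
      norm_num
    rw [e]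
    have e2 : (4 : ℝ) ^ T.card < (q ^ 2 * 4 ^ T.card) * T.card := by
      have : (0 : ℝ) < 4 ^ T.card := by positivity
      nlinarith
    exact lt_of_mul_lt_mul_right (h5.trans_lt e2) hT0.le
  have h8 : (((Finset.range z).powerset.filter (fun S => ∑ i ∈ S, f i = c)).card : ℝ) ≤
      2 ^ (z - T.card) * ((T.card).choose (T.card / 2) : ℕ) := by
    exact_mod_cast h3.trans (Nat.mul_le_mul_left _ h1)
  have h9 : (2 : ℝ) ^ z = 2 ^ (z - T.card) * 2 ^ T.card := by
    rw [← pow_add, Nat.sub_add_cancel hTc]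
  have h10 : (2 : ℝ) ^ (z - T.card) * ((T.card).choose (T.card / 2) : ℕ) <
      2 ^ (z - T.card) * (q * 2 ^ T.card) := mul_lt_mul_of_pos_left h7 (by positivity)
  have h11 := h8.trans_lt h10
  have h12 : q * (2 : ℝ) ^ z = 2 ^ (z - T.card) * (q * 2 ^ T.card) := by
    rw [h9]
    ring
  rw [h12]
  exact h11

end Pool.Agent.LogAll
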