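import Mathlib

/-!
# Piece SB: blocks of pairs of close primes
-/

set_option autoImplicit false

namespace Pool.Agent.LogAll

/-- blocks of pairs of primes: all primes are different, the two primes of a pair are close -/
structure IsBlocks {n : ℕ} (η : ℝ) (B : Fin n → Finset (ℕ × ℕ)) : Prop where
  prime : ∀ i, ∀ t ∈ B i, t.1.Prime ∧ t.2.Prime ∧ t.1 < t.2 ∧ (t.2 : ℝ) ≤ (1 + η) * t.1
  diff : ∀ i j, ∀ t ∈ B i, ∀ s ∈ B j, (i ≠ j ∨ t ≠ s) →
    t.1 ≠ s.1 ∧ t.1 ≠ s.2 ∧ t.2 ≠ s.1 ∧ t.2 ≠ s.2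

/-- sum of the reciprocals of the primes of a block -/
noncomputable def bmass (B : Finset (ℕ × ℕ)) : ℝ := ∑ t ∈ B, ((1 : ℝ) / t.1 + 1 / t.2)

/-- the nth prime -/
private noncomputable def sbP (k : ℕ) : ℕ := Nat.nth Nat.Prime k

private theorem sbP_prime (k : ℕ) : (sbP k).Prime := Nat.prime_nth_prime k

private theorem sbP_mono : StrictMono sbP := Nat.nth_strictMono Nat.infinite_setOf_prime

private theorem sbP_pos (k : ℕ) : (0 : ℝ) < sbP k := by exact_mod_cast (sbP_prime k).pos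

private theorem sb_inv_le {a b : ℕ} (h : a ≤ b) : (1 : ℝ) / sbP b ≤ 1 / sbP a := by
  refine one_div_le_one_div_of_le (sbP_pos a) ?_
  exact_mod_cast sbP_mono.monotone h

/-- the mass of the pair `k` -/
private noncomputable def sbf (k : ℕ) : ℝ := 1 / sbP (2 * k) + 1 / sbP (2 * k + 1)

private theorem sbf_nonneg (k : ℕ) : 0 ≤ sbf k :=
  add_nonneg (one_div_nonneg.2 (sbP_pos _).le) (one_div_nonneg.2 (sbP_pos _).le)

/-- the pair `k` is close -/
private def sbC (η : ℝ) (k : ℕ) : Prop := (sbP (2 * k + 1) : ℝ) ≤ (1 + η) * sbP (2 * k)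

open scoped Classical in
private noncomputable def sbg (η : ℝ) (k : ℕ) : ℝ := if sbC η k then sbf k else 0

private theorem sbg_nonneg (η : ℝ) (k : ℕ) : 0 ≤ sbg η k := by
  unfold sbg
  split_ifs
  · exact sbf_nonneg k
  · exact le_rfl

private theorem sb_far {η : ℝ} (hη : 0 < η) {k : ℕ} (h : ¬ sbC η k) :
    sbf k ≤ 2 * ((1 + η) / η) * (1 / sbP (2 * k) - 1 / sbP (2 * (k + 1))) := by
  have h1 : (1 + η) * (sbP (2 * k) : ℝ) < sbP (2 * k + 1) := not_le.1 h
  have hp := sbP_pos (2 * k)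
  have hq := sbP_pos (2 * k + 1)
  have h2 : (1 : ℝ) / sbP (2 * k + 1) ≤ (1 / (1 + η)) * (1 / sbP (2 * k)) := by
    rw [one_div_mul_one_div]
    exact one_div_le_one_div_of_le (by positivity) h1.le
  have h3 : (1 : ℝ) / sbP (2 * (k + 1)) ≤ 1 / sbP (2 * k + 1) := sb_inv_le (by omega)
  have h4 : (1 : ℝ) / sbP (2 * k + 1) ≤ 1 / sbP (2 * k) := sb_inv_le (by omega)
  have h5 : sbf k ≤ 2 * (1 / sbP (2 * k)) := by
    unfold sbf
    linarith
  refine h5.trans ?_
  rw [mul_assoc]
  refine mul_le_mul_of_nonneg_left ?_ (by norm_num)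
  have h6 : (1 : ℝ) / sbP (2 * k) - 1 / sbP (2 * (k + 1)) ≥
      (η / (1 + η)) * (1 / sbP (2 * k)) := by
    have h7 : (η / (1 + η)) * ((1 : ℝ) / sbP (2 * k)) =
        1 / sbP (2 * k) - (1 / (1 + η)) * (1 / sbP (2 * k)) := by
      field_simp
      ring
    rw [h7]
    linarith
  calc (1 : ℝ) / sbP (2 * k) = ((1 + η) / η) * ((η / (1 + η)) * (1 / sbP (2 * k))) := by
        field_simp
    _ ≤ ((1 + η) / η) * (1 / sbP (2 * k) - 1 / sbP (2 * (k + 1))) :=
        mul_le_mul_of_nonneg_left h6 (by positivity)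

private theorem sb_le {η : ℝ} (hη : 0 < η) (k : ℕ) :
    sbf k ≤ sbg η k + 2 * ((1 + η) / η) * (1 / sbP (2 * k) - 1 / sbP (2 * (k + 1))) := by
  have h0 : (0 : ℝ) ≤ 1 / sbP (2 * k) - 1 / sbP (2 * (k + 1)) :=
    sub_nonneg.2 (sb_inv_le (by omega))
  by_cases h : sbC η k
  · have h1 : 0 ≤ 2 * ((1 + η) / η) * ((1 : ℝ) / sbP (2 * k) - 1 / sbP (2 * (k + 1))) :=
      mul_nonneg (by positivity) h0
    unfold sbg
    rw [if_pos h]
    linarith
  · have h1 := sb_far hη h
    unfold sbg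
    rw [if_neg h]
    linarith

private theorem sb_two (m : ℕ) :
    ∑ j ∈ Finset.range (2 * m), (1 : ℝ) / sbP j = ∑ k ∈ Finset.range m, sbf k := by
  induction m with
  | zero => simp
  | succ m ih =>
    rw [show 2 * (m + 1) = 2 * m + 1 + 1 by ring, Finset.sum_range_succ, Finset.sum_range_succ,
      Finset.sum_range_succ, ih]
    unfold sbf
    ring

private theorem sb_not_summable {η : ℝ} (hη : 0 < η) : ¬ Summable (sbg η) := by
  intro hs
  apply not_summable_one_div_on_primes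
  have h1 : Summable fun j : ℕ => (1 : ℝ) / sbP j := by
    refine summable_of_sum_range_le (c := (∑' k, sbg η k) + 2 * ((1 + η) / η) * (1 / sbP 0))
      (fun j => one_div_nonneg.2 (sbP_pos j).le) fun m => ?_
    have h2 : ∑ j ∈ Finset.range m, (1 : ℝ) / sbP j ≤ ∑ j ∈ Finset.range (2 * m), (1 : ℝ) / sbP j :=
      Finset.sum_le_sum_of_subset_of_nonneg (Finset.range_subset_range.2 (by omega))
        fun j _ _ => one_div_nonneg.2 (sbP_pos j).le
    refine h2.trans ?_
    rw [sb_two]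
    refine (Finset.sum_le_sum fun k _ => sb_le hη k).trans ?_
    rw [Finset.sum_add_distrib, ← Finset.mul_sum]
    refine add_le_add (hs.sum_le_tsum _ fun k _ => sbg_nonneg η k) ?_
    refine mul_le_mul_of_nonneg_left ?_ (by positivity)
    have h3 := Finset.sum_range_sub' (fun k : ℕ => (1 : ℝ) / sbP (2 * k)) m
    rw [h3]
    have h4 : (0 : ℝ) ≤ 1 / sbP (2 * m) := one_div_nonneg.2 (sbP_pos _).le
    show (1 : ℝ) / sbP (2 * 0) - 1 / sbP (2 * m) ≤ 1 / sbP 0
    rw [mul_zero]
    linarith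
  refine (sbP_mono.injective.summable_iff ?_).1 ?_
  · intro x hx
    refine Set.indicator_of_notMem (fun hp => hx ?_) _
    have h5 : Set.range sbP = {p | p.Prime} := Nat.range_nth_of_infinite Nat.infinite_setOf_prime
    rw [h5]
    exact hp
  · refine h1.congr fun j => ?_
    show (1 : ℝ) / sbP j = Set.indicator {p : ℕ | p.Prime} (fun n : ℕ => (1 : ℝ) / n) (sbP j)
    rw [Set.indicator_of_mem (show sbP j ∈ {p : ℕ | p.Prime} from sbP_prime j)]

private noncomputable def sbPair (k : ℕ) : ℕ × ℕ := (sbP (2 * k), sbP (2 * k + 1))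

/-- Proof: P k = nth prime. For the pairs (P (2 k), P (2 k + 1)) with P (2 k + 1) > (1 + η) P (2 k):
1 / P (2 k) ≤ ((1 + η) / η) (1 / P (2 k) - 1 / P (2 k + 2)), so their sum of 1 / P (2 k) is at most
(1 + η) / (2 η) (telescoping); the sum of 1 / P (2 k) over all k diverges
(`Nat.Primes.not_summable_one_div`, 1 / P (2 k) ≥ 1 / P (2 k + 1)). So the close pairs have infinite
mass, and one can choose successive finite blocks of them. -/
theorem exists_blocks (n : ℕ) {η L : ℝ} (hη : 0 < η) : ∃ B : Fin n → Finset (ℕ × ℕ),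
    IsBlocks η B ∧ ∀ i, L ≤ bmass (B i) := by
  classical
  have ht : Filter.Tendsto (fun m => ∑ k ∈ Finset.range m, sbg η k) Filter.atTop Filter.atTop :=
    (not_summable_iff_tendsto_nat_atTop_of_nonneg (sbg_nonneg η)).1 (sb_not_summable hη)
  have hex : ∀ a : ℕ, ∃ b, a ≤ b ∧
      (∑ k ∈ Finset.range a, sbg η k) + L ≤ ∑ k ∈ Finset.range b, sbg η k := by
    intro a
    obtain ⟨b, h1, h2⟩ := ((Filter.eventually_ge_atTop a).and
      (ht.eventually (Filter.eventually_ge_atTop ((∑ k ∈ Finset.range a, sbg η k) + L)))).exists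
    exact ⟨b, h1, h2⟩
  choose g hg1 hg2 using hex
  let m : ℕ → ℕ := fun i => g^[i] 0
  have hm : ∀ i, m (i + 1) = g (m i) := fun i => Function.iterate_succ_apply' g i 0
  have hmono : Monotone m := monotone_nat_of_le_succ fun i => by
    rw [hm]
    exact hg1 _
  have hinj : Function.Injective sbPair := by
    intro a b h
    have h1 : sbP (2 * a) = sbP (2 * b) := congrArg Prod.fst h
    have h2 := sbP_mono.injective h1
    omega
  refine ⟨fun i => ((Finset.Ico (m i) (m (i + 1))).filter (sbC η)).image sbPair, ⟨?_, ?_⟩, ?_⟩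
  · intro i t ht'
    obtain ⟨k, hk, rfl⟩ := Finset.mem_image.1 ht'
    rw [Finset.mem_filter] at hk
    exact ⟨sbP_prime _, sbP_prime _, sbP_mono (Nat.lt_succ_self _), hk.2⟩
  · intro i j t ht' s hs' hne
    obtain ⟨a, ha, rfl⟩ := Finset.mem_image.1 ht'
    obtain ⟨b, hb, rfl⟩ := Finset.mem_image.1 hs'
    rw [Finset.mem_filter, Finset.mem_Ico] at ha hb
    have hab : a ≠ b := by
      rintro rfl
      rcases hne with h | h
      · have h1 : (i : ℕ) ≠ j := fun h2 => h (Fin.ext h2)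
        rcases lt_or_gt_of_ne h1 with h2 | h2
        · have h3 : m ((i : ℕ) + 1) ≤ m j := hmono h2
          omega
        · have h3 : m ((j : ℕ) + 1) ≤ m i := hmono h2
          omega
      · exact h rfl
    have key : ∀ x y : ℕ, x ≠ y → sbP x ≠ sbP y := fun x y h1 h2 => h1 (sbP_mono.injective h2)
    exact ⟨key _ _ (by omega), key _ _ (by omega), key _ _ (by omega), key _ _ (by omega)⟩
  · intro i
    have h1 : bmass (((Finset.Ico (m i) (m (i + 1))).filter (sbC η)).image sbPair) =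
        ∑ k ∈ Finset.Ico (m i) (m (i + 1)), sbg η k := by
      unfold bmass
      rw [Finset.sum_image fun a _ b _ h => hinj h, Finset.sum_filter]
      rfl
    rw [h1, Finset.sum_Ico_eq_sub _ (hmono (Nat.le_succ _))]
    have h2 := hg2 (m i)
    rw [← hm] at h2
    linarith

end Pool.Agent.LogAll
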