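import Pool.Agent.Lib_MP_1eadae_ls.SB

/-!
# Piece SC: counting with cubes
-/

set_option autoImplicit false

namespace Pool.Agent.LogAll

open Classical in
/-- number of the primes of a block dividing `a` -/
noncomputable def bom (B : Finset (ℕ × ℕ)) (a : ℕ) : ℝ :=
  ∑ t ∈ B, ((if t.1 ∣ a then (1 : ℝ) else 0) + (if t.2 ∣ a then (1 : ℝ) else 0))

open Classical in
private theorem prod_two {n : ℕ} (f g : Fin n → Prop) :
    ∏ i, ((if g i then (1 : ℝ) else 0) + (if f i then (1 : ℝ) else 0)) =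
      ∑ S : Finset (Fin n), if (∀ i, if i ∈ S then f i else g i) then (1 : ℝ) else 0 := by
  have h0 : ∀ i : Fin n, ((if g i then (1 : ℝ) else 0) + (if f i then (1 : ℝ) else 0)) =
      (if f i then (1 : ℝ) else 0) + (if g i then (1 : ℝ) else 0) := fun i => add_comm _ _
  rw [Finset.prod_congr rfl fun i _ => h0 i, Finset.prod_add, Finset.powerset_univ]
  refine Finset.sum_congr rfl fun S _ => ?_
  have h1 : ∀ i, (if (if i ∈ S then f i else g i) then (1 : ℝ) else 0) =
      if i ∈ S then (if f i then (1 : ℝ) else 0) else (if g i then (1 : ℝ) else 0) := by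
    intro i
    by_cases hi : i ∈ S
    · simp only [if_pos hi]
    · simp only [if_neg hi]
  have h2 : (if (∀ i, if i ∈ S then f i else g i) then (1 : ℝ) else 0) =
      ∏ i, (if (if i ∈ S then f i else g i) then (1 : ℝ) else 0) := by
    by_cases h : ∀ i, if i ∈ S then f i else g i
    · rw [if_pos h]
      refine (Finset.prod_eq_one fun i _ => ?_).symm
      rw [if_pos (h i)]
    · rw [if_neg h]
      push Not at h
      obtain ⟨i, hi⟩ := h
      refine (Finset.prod_eq_zero (Finset.mem_univ i) ?_).symm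
      rw [if_neg hi]
  rw [h2, Finset.prod_congr rfl fun i _ => h1 i, ← Finset.prod_mul_prod_compl S,
    ← Finset.compl_eq_univ_sdiff]
  congr 1
  · exact Finset.prod_congr rfl fun i hi => (if_pos hi).symm
  · exact Finset.prod_congr rfl fun i hi => (if_neg (Finset.mem_compl.1 hi)).symm

open Classical in
private theorem one_cube {n : ℕ} (t : Fin n → ℕ × ℕ) (hp : ∀ i, (t i).1.Prime ∧ (t i).2.Prime)
    (hlt : ∀ i, (t i).1 < (t i).2)
    (hd : ∀ i j, i ≠ j → (t i).1 ≠ (t j).1 ∧ (t i).1 ≠ (t j).2 ∧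
        (t i).2 ≠ (t j).1 ∧ (t i).2 ≠ (t j).2)
    (bad : Set ℕ) (S : Finset (Fin n)) (x : ℕ) :
    ∑ a ∈ (Finset.Icc 1 x).filter (fun a => a ∈ bad),
        (if (∀ i, if i ∈ S then (t i).2 ∣ a else (t i).1 ∣ a) then (1 : ℝ) else 0) ≤
      ∑ m ∈ Finset.Icc 1 (x / ∏ i, (t i).1),
        (if m * ∏ i, (if i ∈ S then (t i).2 else (t i).1) ∈ bad then (1 : ℝ) else 0) := by
  set R : ℕ := ∏ i, (if i ∈ S then (t i).2 else (t i).1) with hR
  set Q : ℕ := ∏ i, (t i).1 with hQ
  have hQpos : 0 < Q := Finset.prod_pos fun i _ => (hp i).1.pos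
  have hQR : Q ≤ R := by
    refine Finset.prod_le_prod' fun i _ => ?_
    split_ifs
    · exact (hlt i).le
    · exact le_refl _
  have hRpos : 0 < R := lt_of_lt_of_le hQpos hQR
  have hdvd : ∀ a, (∀ i, if i ∈ S then (t i).2 ∣ a else (t i).1 ∣ a) → R ∣ a := by
    intro a ha
    refine Finset.prod_dvd_of_isRelPrime ?_ ?_
    · intro i _ j _ hij
      change IsRelPrime _ _
      rw [← Nat.coprime_iff_isRelPrime]
      obtain ⟨h1, h2, h3, h4⟩ := hd i j hij
      change Nat.Coprime (if i ∈ S then (t i).2 else (t i).1)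
        (if j ∈ S then (t j).2 else (t j).1)
      split_ifs
      · exact (Nat.coprime_primes (hp i).2 (hp j).2).2 h4
      · exact (Nat.coprime_primes (hp i).2 (hp j).1).2 h3
      · exact (Nat.coprime_primes (hp i).1 (hp j).2).2 h2
      · exact (Nat.coprime_primes (hp i).1 (hp j).1).2 h1
    · intro i _
      have := ha i
      split_ifs at this ⊢
      · exact this
      · exact this
  rw [← Finset.sum_filter, ← Finset.sum_filter, Finset.sum_const, Finset.sum_const,
    nsmul_eq_mul, nsmul_eq_mul, mul_one, mul_one]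
  norm_cast
  refine Finset.card_le_card_of_injOn (fun a => a / R) ?_ ?_
  · intro a ha
    rw [Finset.mem_coe, Finset.mem_filter, Finset.mem_filter, Finset.mem_Icc] at ha
    obtain ⟨⟨⟨ha1, hax⟩, hab⟩, had⟩ := ha
    have hRa := hdvd a had
    rw [Finset.mem_coe, Finset.mem_filter, Finset.mem_Icc]
    refine ⟨⟨Nat.div_pos (Nat.le_of_dvd ha1 hRa) hRpos, ?_⟩, ?_⟩
    · exact (Nat.div_le_div_right hax).trans (Nat.div_le_div_left hQR hQpos)
    · rw [Nat.div_mul_cancel hRa]
      exact hab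
  · intro a ha b hb hab
    rw [Finset.mem_coe, Finset.mem_filter] at ha hb
    have h1 := Nat.div_mul_cancel (hdvd a ha.2)
    have h2 := Nat.div_mul_cancel (hdvd b hb.2)
    change a / R = b / R at hab
    rw [← h1, ← h2, hab]

open Classical in
/-- Proof: the product over i of `bom (B i) a` is the number of pairs (t, S), t in the product of the
B i, S a subset of Fin n, such that the primes r i = (if i ∈ S then (t i).2 else (t i).1) all divide
a, i.e. (different primes) a = m ∏ r i. Enlarge the range m ≤ x / ∏ r i to m ≤ x / ∏ (t i).1, use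
hcube, the number of these m is at most x / ∏ (t i).1, and
2 / (t i).1 ≤ (1 + η) (1 / (t i).1 + 1 / (t i).2). -/
theorem cube_count {n : ℕ} {η : ℝ} (hη : 0 < η) (B : Fin n → Finset (ℕ × ℕ)) (hB : IsBlocks η B)
    (bad : Set ℕ) {ε : ℝ} (hε : 0 < ε)
    (hcube : ∀ t : Fin n → ℕ × ℕ, (∀ i, t i ∈ B i) → ∀ m : ℕ, 0 < m →
      ((((Finset.univ : Finset (Finset (Fin n))).filter (fun S =>
        m * ∏ i, (if i ∈ S then (t i).2 else (t i).1) ∈ bad)).card : ℕ) : ℝ) ≤ ε * 2 ^ n)
    (x : ℕ) :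
    ∑ a ∈ (Finset.Icc 1 x).filter (fun a => a ∈ bad), ∏ i, bom (B i) a ≤
      ε * (1 + η) ^ n * (∏ i, bmass (B i)) * x := by
  classical
  have hexp : ∀ a, ∏ i, bom (B i) a = ∑ t ∈ Fintype.piFinset B, ∑ S : Finset (Fin n),
      if (∀ i, if i ∈ S then (t i).2 ∣ a else (t i).1 ∣ a) then (1 : ℝ) else 0 := by
    intro a
    unfold bom
    rw [Finset.prod_univ_sum]
    refine Finset.sum_congr rfl fun t _ => ?_
    have h := prod_two (fun i => (t i).2 ∣ a) (fun i => (t i).1 ∣ a)
    convert h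
  rw [Finset.sum_congr rfl fun a _ => hexp a, Finset.sum_comm]
  have hpr : ∏ i, bmass (B i) = ∑ t ∈ Fintype.piFinset B,
      ∏ i, ((1 : ℝ) / (t i).1 + 1 / (t i).2) := by
    unfold bmass
    rw [Finset.prod_univ_sum]
  rw [hpr, Finset.mul_sum, Finset.sum_mul]
  refine Finset.sum_le_sum fun t ht => ?_
  rw [Fintype.mem_piFinset] at ht
  have hp : ∀ i, (t i).1.Prime ∧ (t i).2.Prime := fun i =>
    ⟨(hB.prime i _ (ht i)).1, (hB.prime i _ (ht i)).2.1⟩
  have hlt : ∀ i, (t i).1 < (t i).2 := fun i => (hB.prime i _ (ht i)).2.2.1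
  have hle : ∀ i, ((t i).2 : ℝ) ≤ (1 + η) * (t i).1 := fun i => (hB.prime i _ (ht i)).2.2.2
  have hd : ∀ i j, i ≠ j → (t i).1 ≠ (t j).1 ∧ (t i).1 ≠ (t j).2 ∧
      (t i).2 ≠ (t j).1 ∧ (t i).2 ≠ (t j).2 := fun i j hij =>
    hB.diff i j _ (ht i) _ (ht j) (Or.inl hij)
  set Q : ℕ := ∏ i, (t i).1 with hQ
  rw [Finset.sum_comm]
  calc ∑ S : Finset (Fin n), ∑ a ∈ (Finset.Icc 1 x).filter (fun a => a ∈ bad),
        (if (∀ i, if i ∈ S then (t i).2 ∣ a else (t i).1 ∣ a) then (1 : ℝ) else 0)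
      ≤ ∑ S : Finset (Fin n), ∑ m ∈ Finset.Icc 1 (x / Q),
        (if m * ∏ i, (if i ∈ S then (t i).2 else (t i).1) ∈ bad then (1 : ℝ) else 0) :=
        Finset.sum_le_sum fun S _ => one_cube t hp hlt hd bad S x
    _ = ∑ m ∈ Finset.Icc 1 (x / Q), ((((Finset.univ : Finset (Finset (Fin n))).filter (fun S =>
        m * ∏ i, (if i ∈ S then (t i).2 else (t i).1) ∈ bad)).card : ℕ) : ℝ) := by
        rw [Finset.sum_comm]
        refine Finset.sum_congr rfl fun m _ => ?_
        rw [Finset.card_filter]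
        push_cast
        rfl
    _ ≤ ∑ m ∈ Finset.Icc 1 (x / Q), ε * 2 ^ n :=
        Finset.sum_le_sum fun m hm => hcube t ht m (Finset.mem_Icc.1 hm).1
    _ = ((x / Q : ℕ) : ℝ) * (ε * 2 ^ n) := by
        rw [Finset.sum_const, Nat.card_Icc, nsmul_eq_mul, add_tsub_cancel_right]
    _ ≤ (x : ℝ) / Q * (ε * 2 ^ n) :=
        mul_le_mul_of_nonneg_right Nat.cast_div_le (by positivity)
    _ = ε * (∏ i, (2 : ℝ) / (t i).1) * x := by
        rw [Finset.prod_div_distrib, Finset.prod_const, Finset.card_univ, Fintype.card_fin, hQ]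
        push_cast
        ring
    _ ≤ ε * (1 + η) ^ n * (∏ i, ((1 : ℝ) / (t i).1 + 1 / (t i).2)) * x := by
        have h1 : ∏ i, (2 : ℝ) / (t i).1 ≤
            ∏ i, ((1 + η) * ((1 : ℝ) / (t i).1 + 1 / (t i).2)) := by
          refine Finset.prod_le_prod (fun i _ => by positivity) fun i _ => ?_
          have h2 : (0 : ℝ) < (t i).1 := Nat.cast_pos.2 (hp i).1.pos
          have h3 : (0 : ℝ) < (t i).2 := Nat.cast_pos.2 (hp i).2.pos
          have h4 : (1 : ℝ) / (t i).1 ≤ (1 + η) * (1 / (t i).2) := by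
            rw [mul_one_div, div_le_div_iff₀ h2 h3, one_mul]
            exact hle i
          have h5 : (0 : ℝ) < 1 / (t i).1 := by positivity
          have h6 : (2 : ℝ) / (t i).1 = 1 / (t i).1 + 1 / (t i).1 := by ring
          rw [h6]
          nlinarith
        rw [Finset.prod_mul_distrib, Finset.prod_const, Finset.card_univ, Fintype.card_fin] at h1
        have h7 : (0 : ℝ) ≤ x := Nat.cast_nonneg x
        rw [mul_assoc ε ((1 + η) ^ n)]
        exact mul_le_mul_of_nonneg_right (mul_le_mul_of_nonneg_left h1 hε.le) h7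

end Pool.Agent.LogAll
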