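import Mathlib

/-!
# Piece ST: the inequality of Turan for a finite set of primes
-/

set_option autoImplicit false

namespace Pool.Agent.LogAll

private theorem st_card (x d : ℕ) : ((Finset.Icc 1 x).filter (fun a => d ∣ a)).card = x / d := by
  have h1 : Finset.Icc 1 x = Finset.Ioc 0 x := by
    ext a
    simp only [Finset.mem_Icc, Finset.mem_Ioc]
    omega
  rw [h1]
  exact Nat.Ioc_filter_dvd_card_eq_div x d

private theorem st_sum (x d : ℕ) :
    ∑ a ∈ Finset.Icc 1 x, (if d ∣ a then (1 : ℝ) else 0) = ((x / d : ℕ) : ℝ) := by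
  rw [Finset.sum_boole, st_card]

private theorem st_lower (x : ℕ) {d : ℕ} (hd : 0 < d) : (x : ℝ) / d - 1 ≤ ((x / d : ℕ) : ℝ) := by
  have h1 : x < (x / d + 1) * d := by
    have e1 := Nat.div_add_mod x d
    have e2 := Nat.mod_lt x hd
    nlinarith [e1, e2]
  have h2 : (x : ℝ) < (((x / d : ℕ) : ℝ) + 1) * d := by exact_mod_cast h1
  have hd' : (0 : ℝ) < d := by exact_mod_cast hd
  have h3 : (x : ℝ) / d < ((x / d : ℕ) : ℝ) + 1 := by
    rw [div_lt_iff₀ hd']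
    exact h2
  linarith

private theorem st_pair (x : ℕ) {p q : ℕ} (hp : p.Prime) (hq : q.Prime) :
    ∑ a ∈ Finset.Icc 1 x, (if p ∣ a then (1 : ℝ) else 0) * (if q ∣ a then (1 : ℝ) else 0) ≤
      (x : ℝ) * (1 / p * (1 / q)) + if p = q then (x : ℝ) * (1 / p) else 0 := by
  have hx : (0 : ℝ) ≤ x := Nat.cast_nonneg x
  by_cases h : p = q
  · subst h
    rw [if_pos rfl]
    have h1 : ∑ a ∈ Finset.Icc 1 x, (if p ∣ a then (1 : ℝ) else 0) * (if p ∣ a then (1 : ℝ) else 0) =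
        ((x / p : ℕ) : ℝ) := by
      rw [← st_sum]
      refine Finset.sum_congr rfl fun a _ => ?_
      split_ifs <;> norm_num
    rw [h1]
    have h2 : ((x / p : ℕ) : ℝ) ≤ (x : ℝ) / p := Nat.cast_div_le
    have h3 : (0 : ℝ) ≤ (x : ℝ) * (1 / p * (1 / p)) := by positivity
    have h4 : (x : ℝ) / p = x * (1 / p) := by rw [mul_one_div]
    rw [h4] at h2
    linarith
  · rw [if_neg h, add_zero]
    have hc : Nat.Coprime p q := (Nat.coprime_primes hp hq).2 h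
    have h1 : ∑ a ∈ Finset.Icc 1 x, (if p ∣ a then (1 : ℝ) else 0) * (if q ∣ a then (1 : ℝ) else 0) =
        ((x / (p * q) : ℕ) : ℝ) := by
      rw [← st_sum]
      refine Finset.sum_congr rfl fun a _ => ?_
      by_cases h2 : p ∣ a
      · by_cases h3 : q ∣ a
        · rw [if_pos h2, if_pos h3, if_pos (hc.mul_dvd_of_dvd_of_dvd h2 h3), mul_one]
        · rw [if_neg h3, if_neg (fun h4 => h3 ((Dvd.intro_left p rfl).trans h4)), mul_zero]
      · rw [if_neg h2, if_neg (fun h4 => h2 ((Dvd.intro q rfl).trans h4)), zero_mul]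
    rw [h1]
    have h2 : ((x / (p * q) : ℕ) : ℝ) ≤ (x : ℝ) / ((p * q : ℕ) : ℝ) := Nat.cast_div_le
    refine h2.trans (le_of_eq ?_)
    rw [Nat.cast_mul, one_div_mul_one_div, mul_one_div]

/-- Proof: sum over a ≤ x of (ω(a) - L) ^ 2 is at most L x + 2 L |P| (ω(a) = number of p in P
dividing a, L = sum of the 1 / p; number of a ≤ x divisible by p is x / p (floor), by p and q,
p ≠ q, is x / (p q)); Chebyshev; X₀ = 2 |P|. -/
theorem turan (P : Finset ℕ) (hP : ∀ p ∈ P, p.Prime) {δ : ℝ} (hδ : 0 < δ)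
    (hL : 0 < ∑ p ∈ P, (1 : ℝ) / p) : ∃ X₀ : ℕ, ∀ x : ℕ, X₀ ≤ x →
      ((((Finset.Icc 1 x).filter (fun a => (((P.filter (fun p => p ∣ a)).card : ℕ) : ℝ) ≤
        (1 - δ) * ∑ p ∈ P, (1 : ℝ) / p)).card : ℕ) : ℝ) ≤
          2 / (δ ^ 2 * ∑ p ∈ P, (1 : ℝ) / p) * x := by
  refine ⟨2 * P.card, fun x hx => ?_⟩
  obtain ⟨L, hLd⟩ : ∃ L : ℝ, L = ∑ p ∈ P, (1 : ℝ) / p := ⟨_, rfl⟩
  rw [← hLd] at hL ⊢
  have hxR : 2 * (P.card : ℝ) ≤ x := by exact_mod_cast hx
  obtain ⟨om, hom⟩ : ∃ om : ℕ → ℝ, ∀ a, om a = ∑ p ∈ P, (if p ∣ a then (1 : ℝ) else 0) :=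
    ⟨_, fun _ => rfl⟩
  have hcard : ∀ a, (((P.filter (fun p => p ∣ a)).card : ℕ) : ℝ) = om a := by
    intro a
    rw [hom, Finset.sum_boole]
  simp only [hcard]
  have hx1 : ∑ _a ∈ Finset.Icc 1 x, (1 : ℝ) = x := by
    rw [Finset.sum_const, Nat.card_Icc, nsmul_eq_mul, mul_one, Nat.add_sub_cancel]
  have hfirst : (x : ℝ) * L - P.card ≤ ∑ a ∈ Finset.Icc 1 x, om a := by
    have h1 : ∑ a ∈ Finset.Icc 1 x, om a = ∑ p ∈ P, ((x / p : ℕ) : ℝ) := by
      simp only [hom]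
      rw [Finset.sum_comm]
      exact Finset.sum_congr rfl fun p _ => st_sum x p
    rw [h1]
    have h2 : (x : ℝ) * L - P.card = ∑ p ∈ P, ((x : ℝ) / p - 1) := by
      rw [Finset.sum_sub_distrib, Finset.sum_const, nsmul_eq_mul, mul_one, hLd, Finset.mul_sum]
      congr 1
      exact Finset.sum_congr rfl fun p _ => by rw [mul_one_div]
    rw [h2]
    exact Finset.sum_le_sum fun p hp => st_lower x (hP p hp).pos
  have hsecond : ∑ a ∈ Finset.Icc 1 x, om a ^ 2 ≤ x * L ^ 2 + x * L := by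
    have h1 : ∑ a ∈ Finset.Icc 1 x, om a ^ 2 = ∑ p ∈ P, ∑ q ∈ P,
        ∑ a ∈ Finset.Icc 1 x, (if p ∣ a then (1 : ℝ) else 0) * (if q ∣ a then (1 : ℝ) else 0) := by
      have h2 : ∀ a, om a ^ 2 = ∑ p ∈ P, ∑ q ∈ P,
          (if p ∣ a then (1 : ℝ) else 0) * (if q ∣ a then (1 : ℝ) else 0) := by
        intro a
        rw [hom, sq, Finset.sum_mul_sum]
      simp only [h2]
      rw [Finset.sum_comm]
      refine Finset.sum_congr rfl fun p _ => ?_
      rw [Finset.sum_comm]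
    rw [h1]
    have h3 : ∑ p ∈ P, ∑ q ∈ P,
        ∑ a ∈ Finset.Icc 1 x, (if p ∣ a then (1 : ℝ) else 0) * (if q ∣ a then (1 : ℝ) else 0) ≤
        ∑ p ∈ P, ∑ q ∈ P, ((x : ℝ) * (1 / p * (1 / q)) + if p = q then (x : ℝ) * (1 / p) else 0) :=
      Finset.sum_le_sum fun p hp => Finset.sum_le_sum fun q hq => st_pair x (hP p hp) (hP q hq)
    refine h3.trans (le_of_eq ?_)
    simp only [Finset.sum_add_distrib]
    congr 1
    · rw [sq, hLd, Finset.sum_mul_sum, Finset.mul_sum]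
      refine Finset.sum_congr rfl fun p _ => ?_
      rw [Finset.mul_sum]
    · rw [hLd, Finset.mul_sum]
      refine Finset.sum_congr rfl fun p hp => ?_
      rw [Finset.sum_ite_eq, if_pos hp]
  have hS : ∑ a ∈ Finset.Icc 1 x, (om a - L) ^ 2 ≤ 2 * L * x := by
    have h1 : ∑ a ∈ Finset.Icc 1 x, (om a - L) ^ 2 =
        ∑ a ∈ Finset.Icc 1 x, om a ^ 2 - 2 * L * ∑ a ∈ Finset.Icc 1 x, om a + L ^ 2 * x := by
      rw [← hx1, Finset.mul_sum, Finset.mul_sum, ← Finset.sum_sub_distrib, ← Finset.sum_add_distrib]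
      exact Finset.sum_congr rfl fun a _ => by ring
    rw [h1]
    have h2 : 2 * L * ((x : ℝ) * L - P.card) ≤ 2 * L * ∑ a ∈ Finset.Icc 1 x, om a :=
      mul_le_mul_of_nonneg_left hfirst (by positivity)
    have h3 : L * (2 * (P.card : ℝ)) ≤ L * x := mul_le_mul_of_nonneg_left hxR hL.le
    nlinarith [hsecond, h2, h3]
  obtain ⟨B, hB⟩ : ∃ B : Finset ℕ, B = (Finset.Icc 1 x).filter (fun a => om a ≤ (1 - δ) * L) :=
    ⟨_, rfl⟩
  rw [← hB]
  have hcheb : (B.card : ℝ) * (δ ^ 2 * L ^ 2) ≤ 2 * L * x := by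
    have h1 : (B.card : ℝ) * (δ ^ 2 * L ^ 2) = ∑ _a ∈ B, δ ^ 2 * L ^ 2 := by
      rw [Finset.sum_const, nsmul_eq_mul]
    rw [h1]
    refine (Finset.sum_le_sum (f := fun _ => δ ^ 2 * L ^ 2) (g := fun a => (om a - L) ^ 2)
      fun a ha => ?_).trans ((Finset.sum_le_sum_of_subset_of_nonneg ?_
        (fun a _ _ => sq_nonneg _)).trans hS)
    · rw [hB] at ha
      have h2 := (Finset.mem_filter.1 ha).2
      have h3 : δ * L ≤ L - om a := by linarith
      have h4 : 0 ≤ δ * L := by positivity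
      calc δ ^ 2 * L ^ 2 = (δ * L) ^ 2 := by ring
        _ ≤ (L - om a) ^ 2 := pow_le_pow_left₀ h4 h3 2
        _ = (om a - L) ^ 2 := by ring
    · rw [hB]
      exact Finset.filter_subset _ _
  rw [div_mul_eq_mul_div, le_div_iff₀ (by positivity)]
  have h5 : ((B.card : ℝ) * (δ ^ 2 * L)) * L ≤ (2 * x) * L := by
    calc ((B.card : ℝ) * (δ ^ 2 * L)) * L = (B.card : ℝ) * (δ ^ 2 * L ^ 2) := by ring
      _ ≤ 2 * L * x := hcheb
      _ = (2 * x) * L := by ring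
  exact le_of_mul_le_mul_right h5 hL

end Pool.Agent.LogAll
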