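import Pool.Agent.Lib_MP_1eadae_ls.SC
import Pool.Agent.Lib_MP_1eadae_ls.ST

/-!
# Piece SD: from cubes to natural density
-/

set_option autoImplicit false

namespace Pool.Agent.LogAll

private theorem block_sum {n : ℕ} {η : ℝ} {B : Fin n → Finset (ℕ × ℕ)} (hB : IsBlocks η B)
    (i : Fin n) (f : ℕ → ℝ) :
    ∑ p ∈ (B i).image Prod.fst ∪ (B i).image Prod.snd, f p = ∑ t ∈ B i, (f t.1 + f t.2) := by
  have h1 : Set.InjOn Prod.fst (B i : Set (ℕ × ℕ)) := by
    intro t ht s hs hts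
    by_contra hne
    exact (hB.diff i i t ht s hs (Or.inr hne)).1 hts
  have h2 : Set.InjOn Prod.snd (B i : Set (ℕ × ℕ)) := by
    intro t ht s hs hts
    by_contra hne
    exact (hB.diff i i t ht s hs (Or.inr hne)).2.2.2 hts
  have hd : Disjoint ((B i).image Prod.fst) ((B i).image Prod.snd) := by
    rw [Finset.disjoint_left]
    intro p hp hq
    rw [Finset.mem_image] at hp hq
    obtain ⟨t, ht, rfl⟩ := hp
    obtain ⟨s, hs, hst⟩ := hq
    by_cases hne : t = s
    · subst hne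
      have := (hB.prime i t ht).2.2.1
      omega
    · exact (hB.diff i i t ht s hs (Or.inr hne)).2.1 hst.symm
  rw [Finset.sum_union hd, Finset.sum_image h1, Finset.sum_image h2, Finset.sum_add_distrib]

private theorem block_prime {n : ℕ} {η : ℝ} {B : Fin n → Finset (ℕ × ℕ)} (hB : IsBlocks η B)
    (i : Fin n) : ∀ p ∈ (B i).image Prod.fst ∪ (B i).image Prod.snd, p.Prime := by
  intro p hp
  rw [Finset.mem_union, Finset.mem_image, Finset.mem_image] at hp
  rcases hp with ⟨t, ht, rfl⟩ | ⟨t, ht, rfl⟩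
  · exact (hB.prime i t ht).1
  · exact (hB.prime i t ht).2.1

private theorem bom_eq {n : ℕ} {η : ℝ} {B : Fin n → Finset (ℕ × ℕ)} (hB : IsBlocks η B)
    (i : Fin n) (a : ℕ) :
    ((((((B i).image Prod.fst ∪ (B i).image Prod.snd).filter (fun p => p ∣ a)).card : ℕ)) : ℝ) =
      bom (B i) a := by
  rw [Finset.natCast_card_filter, block_sum hB i (fun p => if p ∣ a then (1 : ℝ) else 0)]
  unfold bom
  apply Finset.sum_congr rfl
  intro t _
  by_cases h1 : t.1 ∣ a <;> by_cases h2 : t.2 ∣ a <;> simp [h1, h2]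

private theorem bmass_eq {n : ℕ} {η : ℝ} {B : Fin n → Finset (ℕ × ℕ)} (hB : IsBlocks η B)
    (i : Fin n) :
    ∑ p ∈ (B i).image Prod.fst ∪ (B i).image Prod.snd, (1 : ℝ) / p = bmass (B i) := by
  rw [block_sum hB i (fun p => (1 : ℝ) / p)]
  rfl

private theorem bom_nonneg (B : Finset (ℕ × ℕ)) (a : ℕ) : 0 ≤ bom B a := by
  unfold bom
  apply Finset.sum_nonneg
  intro t _
  by_cases h1 : t.1 ∣ a <;> by_cases h2 : t.2 ∣ a <;> simp [h1, h2]

open Classical in
private theorem good_count {n : ℕ} (hn : 0 < n) (B : Fin n → Finset (ℕ × ℕ))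
    (hm : ∀ i, 0 < bmass (B i)) (bad : Set ℕ) {ε' : ℝ} (x : ℕ)
    (hc : ∑ a ∈ (Finset.Icc 1 x).filter (fun a => a ∈ bad), ∏ i, bom (B i) a ≤
      ε' * (1 + 1 / (n : ℝ)) ^ n * (∏ i, bmass (B i)) * x) (hε' : 0 < ε') :
    ((((Finset.Icc 1 x).filter (fun a => a ∈ bad ∧
      ∀ i, (1 - 1 / (2 * n)) * bmass (B i) < bom (B i) a)).card : ℕ) : ℝ) ≤ 6 * ε' * x := by
  have hn0 : (0 : ℝ) < n := by exact_mod_cast hn
  have hn1 : (1 : ℝ) ≤ n := by exact_mod_cast hn
  have hM : 0 < ∏ i, bmass (B i) := Finset.prod_pos (fun i _ => hm i)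
  have hδ : (0 : ℝ) ≤ 1 - 1 / (2 * n) := by
    rw [sub_nonneg, div_le_one (by positivity)]
    linarith
  have hhalf : (1 : ℝ) / 2 ≤ (1 - 1 / (2 * n)) ^ n := by
    have h1 := one_add_mul_le_pow (a := -(1 / (2 * (n : ℝ)))) (by linarith) n
    have h2 : (1 : ℝ) + n * -(1 / (2 * (n : ℝ))) = 1 / 2 := by
      field_simp
      ring
    rw [h2] at h1
    have h3 : (1 : ℝ) + -(1 / (2 * (n : ℝ))) = 1 - 1 / (2 * n) := by ring
    rwa [h3] at h1
  have he : (1 + 1 / (n : ℝ)) ^ n ≤ 3 := by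
    have h1 : 1 + 1 / (n : ℝ) ≤ Real.exp (1 / n) := by
      have := Real.add_one_le_exp (1 / (n : ℝ))
      linarith
    have h2 : (1 + 1 / (n : ℝ)) ^ n ≤ Real.exp (1 / n) ^ n :=
      pow_le_pow_left₀ (by positivity) h1 n
    have h3 : Real.exp (1 / (n : ℝ)) ^ n = Real.exp 1 := by
      rw [← Real.exp_nat_mul]
      rw [mul_one_div_cancel hn0.ne']
    rw [h3] at h2
    have h4 := Real.exp_one_lt_d9
    linarith
  set G := (Finset.Icc 1 x).filter (fun a => a ∈ bad ∧
      ∀ i, (1 - 1 / (2 * n)) * bmass (B i) < bom (B i) a) with hG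
  have hsub : G ⊆ (Finset.Icc 1 x).filter (fun a => a ∈ bad) := by
    intro a ha
    rw [hG, Finset.mem_filter] at ha
    rw [Finset.mem_filter]
    exact ⟨ha.1, ha.2.1⟩
  have h1 : ∑ a ∈ G, ∏ i, bom (B i) a ≤
      ∑ a ∈ (Finset.Icc 1 x).filter (fun a => a ∈ bad), ∏ i, bom (B i) a :=
    Finset.sum_le_sum_of_subset_of_nonneg hsub
      (fun a _ _ => Finset.prod_nonneg (fun i _ => bom_nonneg (B i) a))
  have h2 : ∀ a ∈ G, (1 : ℝ) / 2 * ∏ i, bmass (B i) ≤ ∏ i, bom (B i) a := by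
    intro a ha
    rw [hG, Finset.mem_filter] at ha
    have h3 : ∏ i, ((1 - 1 / (2 * (n : ℝ))) * bmass (B i)) ≤ ∏ i, bom (B i) a := by
      apply Finset.prod_le_prod
      · intro i _
        exact mul_nonneg hδ (hm i).le
      · intro i _
        exact (ha.2.2 i).le
    rw [Finset.prod_mul_distrib, Finset.prod_const, Finset.card_univ, Fintype.card_fin] at h3
    calc (1 : ℝ) / 2 * ∏ i, bmass (B i) ≤ (1 - 1 / (2 * (n : ℝ))) ^ n * ∏ i, bmass (B i) :=
          mul_le_mul_of_nonneg_right hhalf hM.le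
      _ ≤ _ := h3
  have h4 : (G.card : ℝ) * (1 / 2 * ∏ i, bmass (B i)) ≤ ∑ a ∈ G, ∏ i, bom (B i) a := by
    have := Finset.card_nsmul_le_sum G _ _ h2
    rwa [nsmul_eq_mul] at this
  have h5 : ε' * (1 + 1 / (n : ℝ)) ^ n * (∏ i, bmass (B i)) * x ≤
      ε' * 3 * (∏ i, bmass (B i)) * x := by
    have hx : (0 : ℝ) ≤ x := Nat.cast_nonneg x
    apply mul_le_mul_of_nonneg_right _ hx
    apply mul_le_mul_of_nonneg_right _ hM.le
    exact mul_le_mul_of_nonneg_left he hε'.le
  have h6 : (∏ i, bmass (B i)) * (G.card : ℝ) ≤ (∏ i, bmass (B i)) * (6 * ε' * x) := by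
    nlinarith [h1, h4, h5, hc]
  exact le_of_mul_le_mul_left h6 hM

open Classical in
/-- Proof: may assume n ≥ 1 (for n = 0 the hypothesis hcube, with the empty t, says that
no m > 0 is bad, if ε < 1; take blocks with n + 1 or treat n = 0 apart). Blocks from
`exists_blocks` with η = 1 / n and L = 32 n ^ 3 / ε, δ = 1 / (2 n). For the a ≤ x with all
`bom (B i) a` > (1 - δ) bmass (B i) the product is ≥ (1 - δ) ^ n ∏ bmass ≥ (1 / 2) ∏ bmass, so by
`cube_count` there are at most 2 * 3 * ε' * x bad ones among them; the other a are at most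
n * 2 / (δ ^ 2 L) * x by `turan` (P = the primes of the block). -/
theorem natdens (n : ℕ) {ε : ℝ} (hε : 0 < ε) (hε1 : ε < 1) : ∃ X₀ : ℕ, ∀ bad : Set ℕ,
    (∀ t : Fin n → ℕ × ℕ, (∀ i, (t i).1.Prime ∧ (t i).2.Prime) →
      (∀ i, (t i).1 ≠ (t i).2) → (∀ i j, i ≠ j → (t i).1 ≠ (t j).1 ∧ (t i).1 ≠ (t j).2 ∧
        (t i).2 ≠ (t j).1 ∧ (t i).2 ≠ (t j).2) → ∀ m : ℕ, 0 < m →
      ((((Finset.univ : Finset (Finset (Fin n))).filter (fun S =>
        m * ∏ i, (if i ∈ S then (t i).2 else (t i).1) ∈ bad)).card : ℕ) : ℝ) ≤ ε / 12 * 2 ^ n) →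
    ∀ x : ℕ, X₀ ≤ x →
      ((((Finset.Icc 1 x).filter (fun a => a ∈ bad)).card : ℕ) : ℝ) ≤ ε * x := by
  classical
  rcases Nat.eq_zero_or_pos n with hn | hn
  · -- the empty cube
    subst hn
    refine ⟨0, fun bad hbad x _ => ?_⟩
    have hno : ∀ m : ℕ, 0 < m → m ∉ bad := by
      intro m hm hmb
      have h1 := hbad (fun _ => (2, 3)) (fun i => i.elim0) (fun i => i.elim0)
        (fun i => i.elim0) m hm
      have h2 : (∅ : Finset (Fin 0)) ∈ (Finset.univ : Finset (Finset (Fin 0))).filter (fun S =>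
          m * ∏ i, (if i ∈ S then ((fun _ => (2, 3) : Fin 0 → ℕ × ℕ) i).2 else
            ((fun _ => (2, 3) : Fin 0 → ℕ × ℕ) i).1) ∈ bad) := by
        rw [Finset.mem_filter]
        refine ⟨Finset.mem_univ _, ?_⟩
        simpa using hmb
      have h3 := Finset.card_pos.mpr ⟨_, h2⟩
      have h4 : (1 : ℝ) ≤ ((((Finset.univ : Finset (Finset (Fin 0))).filter (fun S =>
          m * ∏ i, (if i ∈ S then ((fun _ => (2, 3) : Fin 0 → ℕ × ℕ) i).2 else
            ((fun _ => (2, 3) : Fin 0 → ℕ × ℕ) i).1) ∈ bad)).card : ℕ) : ℝ) := by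
        exact_mod_cast h3
      have h5 := h4.trans h1
      rw [pow_zero] at h5
      linarith
    have h0 : (Finset.Icc 1 x).filter (fun a => a ∈ bad) = ∅ := by
      rw [Finset.filter_eq_empty_iff]
      intro a ha
      exact hno a (Finset.mem_Icc.mp ha).1
    rw [h0, Finset.card_empty, Nat.cast_zero]
    positivity
  · have hn0 : (0 : ℝ) < n := by exact_mod_cast hn
    have hη : (0 : ℝ) < 1 / n := by positivity
    obtain ⟨B, hB, hL⟩ := exists_blocks n (η := 1 / n) (L := 16 * n ^ 3 / ε) hη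
    have hLpos : 0 < 16 * (n : ℝ) ^ 3 / ε := by positivity
    have hm : ∀ i, 0 < bmass (B i) := fun i => lt_of_lt_of_le hLpos (hL i)
    have hδ : (0 : ℝ) < 1 / (2 * n) := by positivity
    have hT : ∀ i : Fin n, ∃ X₀ : ℕ, ∀ x : ℕ, X₀ ≤ x →
        ((((Finset.Icc 1 x).filter (fun a => bom (B i) a ≤
          (1 - 1 / (2 * n)) * bmass (B i))).card : ℕ) : ℝ) ≤
          2 / ((1 / (2 * n)) ^ 2 * bmass (B i)) * x := by
      intro i
      obtain ⟨X₀, hX⟩ := turan ((B i).image Prod.fst ∪ (B i).image Prod.snd) (block_prime hB i) hδ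
        (by rw [bmass_eq hB i]; exact hm i)
      refine ⟨X₀, fun x hx => ?_⟩
      have h1 := hX x hx
      rw [bmass_eq hB i] at h1
      refine le_trans ?_ h1
      rw [Nat.cast_le]
      apply Finset.card_le_card
      intro a ha
      rw [Finset.mem_filter] at ha ⊢
      refine ⟨ha.1, ?_⟩
      rw [bom_eq hB i a]
      exact ha.2
    choose X₀ hX using hT
    refine ⟨∑ i, X₀ i, fun bad hbad x hx => ?_⟩
    have hxn : (0 : ℝ) ≤ x := Nat.cast_nonneg x
    have hε' : 0 < ε / 12 := by positivity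
    have hc := cube_count hη B hB bad hε' (fun t ht m hmp => hbad t
      (fun i => ⟨(hB.prime i (t i) (ht i)).1, (hB.prime i (t i) (ht i)).2.1⟩)
      (fun i => (hB.prime i (t i) (ht i)).2.2.1.ne)
      (fun i j hij => hB.diff i j (t i) (ht i) (t j) (ht j) (Or.inl hij)) m hmp) x
    have hg := good_count hn B hm bad x hc hε'
    have hbi : ∀ i : Fin n, ((((Finset.Icc 1 x).filter (fun a => bom (B i) a ≤
          (1 - 1 / (2 * n)) * bmass (B i))).card : ℕ) : ℝ) ≤ ε / (2 * n) * x := by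
      intro i
      refine le_trans (hX i x (le_trans ?_ hx)) ?_
      · exact Finset.single_le_sum (fun j _ => Nat.zero_le (X₀ j)) (Finset.mem_univ i)
      · apply mul_le_mul_of_nonneg_right _ hxn
        rw [div_le_div_iff₀ (mul_pos (by positivity) (hm i)) (by positivity)]
        have h1 := hL i
        rw [div_le_iff₀ hε] at h1
        have h2 : (1 / (2 * (n : ℝ))) ^ 2 * bmass (B i) * (4 * n ^ 2) = bmass (B i) := by
          field_simp
          ring
        have h3 : 0 < 4 * (n : ℝ) ^ 2 := by positivity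
        have h4 : ε * ((1 / (2 * (n : ℝ))) ^ 2 * bmass (B i)) * (4 * n ^ 2) =
            bmass (B i) * ε := by
          linear_combination ε * h2
        have h5 : 2 * (2 * (n : ℝ)) * (4 * n ^ 2) ≤
            ε * ((1 / (2 * (n : ℝ))) ^ 2 * bmass (B i)) * (4 * n ^ 2) := by
          rw [h4]
          nlinarith [h1]
        exact le_of_mul_le_mul_right h5 h3
    have hcov : (Finset.Icc 1 x).filter (fun a => a ∈ bad) ⊆
        (Finset.Icc 1 x).filter (fun a => a ∈ bad ∧
          ∀ i, (1 - 1 / (2 * n)) * bmass (B i) < bom (B i) a) ∪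
        Finset.univ.biUnion (fun i : Fin n => (Finset.Icc 1 x).filter (fun a => bom (B i) a ≤
          (1 - 1 / (2 * n)) * bmass (B i))) := by
      intro a ha
      rw [Finset.mem_filter] at ha
      rw [Finset.mem_union, Finset.mem_filter, Finset.mem_biUnion]
      by_cases h : ∀ i, (1 - 1 / (2 * (n : ℝ))) * bmass (B i) < bom (B i) a
      · exact Or.inl ⟨ha.1, ha.2, h⟩
      · push Not at h
        obtain ⟨i, hi⟩ := h
        refine Or.inr ⟨i, Finset.mem_univ i, ?_⟩
        rw [Finset.mem_filter]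
        exact ⟨ha.1, hi⟩
    have hcard := (Finset.card_le_card hcov).trans (Finset.card_union_le _ _)
    have hcard2 := hcard.trans (Nat.add_le_add_left Finset.card_biUnion_le _)
    have hcard3 : ((((Finset.Icc 1 x).filter (fun a => a ∈ bad)).card : ℕ) : ℝ) ≤
        ((((Finset.Icc 1 x).filter (fun a => a ∈ bad ∧
          ∀ i, (1 - 1 / (2 * n)) * bmass (B i) < bom (B i) a)).card : ℕ) : ℝ) +
        ∑ i : Fin n, ((((Finset.Icc 1 x).filter (fun a => bom (B i) a ≤
          (1 - 1 / (2 * n)) * bmass (B i))).card : ℕ) : ℝ) := by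
      exact_mod_cast hcard2
    have hsum : ∑ i : Fin n, ((((Finset.Icc 1 x).filter (fun a => bom (B i) a ≤
          (1 - 1 / (2 * n)) * bmass (B i))).card : ℕ) : ℝ) ≤ ε / 2 * x := by
      refine le_trans (Finset.sum_le_sum (fun i _ => hbi i)) ?_
      rw [Finset.sum_const, Finset.card_univ, Fintype.card_fin, nsmul_eq_mul]
      apply le_of_eq
      field_simp
    calc _ ≤ _ := hcard3
      _ ≤ 6 * (ε / 12) * x + ε / 2 * x := add_le_add hg hsum
      _ = ε * x := by ring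

end Pool.Agent.LogAll
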