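import Pool.Agent.Lib_MP_1eadae_lu.UE
import Pool.Agent.Lib_MP_1eadae_la.RankA

/-!
# Piece SE: independence and rank bound in the ultrapower, internal families
-/

set_option autoImplicit false

namespace Pool.Agent.LogAll

open Pool.Agent.LogRel Polynomial Filter

/-- constant sequences -/
private noncomputable def cst (φ : Ultrafilter ℕ) : ℂ →+* KS φ where
  toFun c := KS.mk φ (fun _ => c)
  map_one' := KS.mk_one.symm
  map_mul' _ _ := KS.mk_mul.symm
  map_zero' := KS.mk_zero.symm
  map_add' _ _ := KS.mk_add.symm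

private theorem cst_apply (φ : Ultrafilter ℕ) (c : ℂ) : cst φ c = KS.mk φ (fun _ => c) := rfl

private theorem rat_smul_mk (φ : Ultrafilter ℕ) (q : ℚ) (g : ℕ → ℂ) :
    q • KS.mk φ g = KS.mk φ (fun n => q • g n) := by
  rw [Rat.smul_def, ← map_ratCast (cst φ) q, cst_apply, KS.mk_mul]
  simp only [Rat.smul_def]

private theorem mk_sum (φ : Ultrafilter ℕ) {ι : Type} (s : Finset ι) (g : ι → ℕ → ℂ) :
    ∑ i ∈ s, KS.mk φ (g i) = KS.mk φ (fun n => ∑ i ∈ s, g i n) := by
  classical
  induction s using Finset.induction_on with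
  | empty => simp [KS.mk_zero]
  | insert a s ha ih =>
    rw [Finset.sum_insert ha, ih, KS.mk_add]
    congr 1
    funext n
    rw [Finset.sum_insert ha]

/-- elements of a finite dimensional space as classes of combinations of fixed sequences -/
private theorem exists_rep (φ : Ultrafilter ℕ) (A : Submodule (kS φ) (KS φ))
    [FiniteDimensional (kS φ) A] :
    ∃ α : Fin (Module.finrank (kS φ) A) → ℕ → ℂ, ∀ a ∈ A,
      ∃ c : Fin (Module.finrank (kS φ) A) → ℕ → Qb,
        a = KS.mk φ (fun m => ∑ i, (c i m : ℂ) * α i m) := by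
  set b := Module.finBasis (kS φ) A with hb
  choose α hα using fun i => KS.mk_surj φ (b i : KS φ)
  refine ⟨α, fun a ha => ?_⟩
  choose c hc using fun i => (mem_kS (φ := φ)).1 (b.repr ⟨a, ha⟩ i).2
  refine ⟨c, ?_⟩
  have h1 := congrArg (Subtype.val) (b.sum_repr ⟨a, ha⟩)
  rw [← mk_sum φ Finset.univ (fun i m => (c i m : ℂ) * α i m)]
  rw [AddSubmonoidClass.coe_finsetSum] at h1
  have h2 : ∀ i, (((b.repr ⟨a, ha⟩) i • b i : A) : KS φ) =
      KS.mk φ (fun m => (c i m : ℂ) * α i m) := by
    intro i
    rw [← KS.mk_mul, hα i, ← hc i]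
    rfl
  calc a = ∑ i, (((b.repr ⟨a, ha⟩) i • b i : A) : KS φ) := h1.symm
    _ = _ := Finset.sum_congr rfl fun i _ => h2 i

/-- at the index n the combinations supported below n are determined -/
private theorem comb_inj {h : ℕ → ℂ} {n : ℕ} (hh : LinearIndependent ℚ (fun i : Fin n => h i))
    (f : ℕ →₀ ℚ) (hf : ∀ i ∈ f.support, i < n) (h0 : Finsupp.linearCombination ℚ h f = 0) :
    f = 0 := by
  rw [Finsupp.linearCombination_apply, Finsupp.sum_of_support_subset f
    (s := Finset.range n) (fun i hi => Finset.mem_range.2 (hf i hi)) _ (by simp),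
    Finset.sum_range] at h0
  have h1 := Fintype.linearIndependent_iff.1 hh (fun i : Fin n => f i) h0
  ext i
  rw [Finsupp.zero_apply]
  by_cases hi : i < n
  · exact h1 ⟨i, hi⟩
  · by_contra hne
    exact hi (hf i (Finsupp.mem_support_iff.2 hne))

private theorem isAlg_exp_rat {z : ℂ} (hz : IsAlgebraic ℚ (Complex.exp z)) (q : ℚ) :
    IsAlgebraic ℚ (Complex.exp ((q : ℂ) * z)) := by
  refine IsAlgebraic.of_pow q.den_pos ?_
  rw [← Complex.exp_nat_mul]
  have h1 : (q.den : ℂ) * ((q : ℂ) * z) = (q.num : ℂ) * z := by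
    rw [← mul_assoc]
    congr 1
    have := Rat.den_mul_eq_num q
    exact_mod_cast this
  rw [h1]
  obtain ⟨k, hk | hk⟩ := Int.eq_nat_or_neg q.num
  · rw [hk, Int.cast_natCast, Complex.exp_nat_mul]
    exact hz.pow k
  · rw [hk, Int.cast_neg, Int.cast_natCast, neg_mul, Complex.exp_neg, Complex.exp_nat_mul]
    exact (hz.pow k).inv

private theorem isAlg_exp_comb {h : ℕ → ℂ} (f : ℕ →₀ ℚ)
    (hf : ∀ i ∈ f.support, IsAlgebraic ℚ (Complex.exp (h i))) :
    IsAlgebraic ℚ (Complex.exp (Finsupp.linearCombination ℚ h f)) := by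
  rw [Finsupp.linearCombination_apply, Finsupp.sum, Complex.exp_sum]
  refine Finset.prod_induction _ (IsAlgebraic ℚ) (fun a b ha hb => ha.mul hb) isAlgebraic_one ?_
  intro i hi
  rw [Rat.smul_def]
  exact isAlg_exp_rat (hf i hi) (f i)

/-- class of the i-th terms -/
noncomputable def lamX (φ : Ultrafilter ℕ) (g : ℕ → ℕ → ℂ) (i : ℕ) : KS φ :=
  KS.mk φ (fun n => g n i)

private theorem comb_mk (φ : Ultrafilter ℕ) (g : ℕ → ℕ → ℂ) (f : ℕ →₀ ℚ) :
    Finsupp.linearCombination ℚ (lamX φ g) f =
      KS.mk φ (fun n => Finsupp.linearCombination ℚ (g n) f) := by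
  simp only [Finsupp.linearCombination_apply, Finsupp.sum]
  rw [← mk_sum φ f.support (fun i n => f i • g n i)]
  refine Finset.sum_congr rfl fun i _ => ?_
  exact rat_smul_mk φ (f i) (fun n => g n i)

private theorem eventually_supp (φ : Ultrafilter ℕ) (hφ : (φ : Filter ℕ) ≤ atTop) (f : ℕ →₀ ℚ) :
    ∀ᶠ n in (φ : Filter ℕ), ∀ i ∈ f.support, i < n := by
  have h1 : ∀ i ∈ f.support, ∀ᶠ n in (φ : Filter ℕ), i < n := fun i _ =>
    hφ (eventually_gt_atTop i)
  exact (Finset.eventually_all f.support).2 h1

/-- a finite relation holds at an index n larger than all i of its support -/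
theorem indX (φ : Ultrafilter ℕ) (hφ : (φ : Filter ℕ) ≤ atTop) (g : ℕ → ℕ → ℂ)
    (hg : ∀ n, LinearIndependent ℚ (fun i : Fin n => g n i)) :
    LinearIndependent ℚ (lamX φ g) := by
  rw [linearIndependent_iff]
  intro f hf
  rw [comb_mk, KS.mk_zero, KS.mk_eq] at hf
  obtain ⟨n, h1, h2⟩ := (hf.and (eventually_supp φ hφ f)).exists
  exact comb_inj (hg n) f h2 h1

/-- Same proof as `rankS` in Lib_MP_1eadae_lu/UE2.lean. Write x j = linear combination with
coefficients c j : ℕ →₀ ℚ of the `lamX φ g i`; the c j are linearly independent; at almost all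
indices n (larger than all elements of the supports) the numbers ∑ i, c j i * g n i are linearly
independent over ℚ, their exponentials are algebraic (rational powers of algebraic numbers: if m c is
integral then exp(y)^m is a product of integral powers of the exp (g n i)), and `rank_le` applies to
them and to the spans of the values of the generators. -/
theorem rankX (φ : Ultrafilter ℕ) (hφ : (φ : Filter ℕ) ≤ atTop) (g : ℕ → ℕ → ℂ)
    (hg : ∀ n, LinearIndependent ℚ (fun i : Fin n => g n i))
    (hexp : ∀ n i, i < n → IsAlgebraic ℚ (Complex.exp (g n i)))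
    (A B : Submodule (kS φ) (KS φ))
    (hA : FiniteDimensional (kS φ) A) (hB : FiniteDimensional (kS φ) B) :
    ∃ n₀ : ℕ, ∀ (n : ℕ) (x : Fin n → KS φ), (∀ j, x j ∈ Submodule.span ℚ (Set.range (lamX φ g))) →
      LinearIndependent ℚ x → (∀ j, ∃ a ∈ A, a ≠ 0 ∧ a * x j ∈ B) → n ≤ n₀ := by
  obtain ⟨α, hα⟩ := exists_rep φ A
  obtain ⟨β, hβ⟩ := exists_rep φ B
  refine ⟨Module.finrank (kS φ) A * (Module.finrank (kS φ) A - 1) + Module.finrank (kS φ) B,
    fun n x hx hli h => ?_⟩
  choose a haA ha0 haB using h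
  choose c hc using fun j => hα (a j) (haA j)
  choose e he using fun j => hβ _ (haB j)
  choose f hf using fun j => (Finsupp.mem_span_range_iff_exists_finsupp.1 (hx j))
  have hf' : ∀ j, x j = Finsupp.linearCombination ℚ (lamX φ g) (f j) := fun j => (hf j).symm
  -- the coefficient vectors are independent
  have hfli : LinearIndependent ℚ f := by
    refine LinearIndependent.of_comp (Finsupp.linearCombination ℚ (lamX φ g)) ?_
    have h1 : (⇑(Finsupp.linearCombination ℚ (lamX φ g)) ∘ f) = x := by
      funext j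
      exact (hf' j).symm
    rw [h1]
    exact hli
  -- the relations at almost all indices
  have hev : ∀ j, ∀ᶠ m in (φ : Filter ℕ), ((∑ i, (c j i m : ℂ) * α i m ≠ 0) ∧
      (∑ i, (c j i m : ℂ) * α i m) * (Finsupp.linearCombination ℚ (g m) (f j)) =
        ∑ i, (e j i m : ℂ) * β i m) ∧ ∀ i ∈ (f j).support, i < m := by
    intro j
    refine Filter.Eventually.and (Filter.Eventually.and ?_ ?_) (eventually_supp φ hφ (f j))
    · rw [Ultrafilter.eventually_not]
      intro h0
      apply ha0 j
      rw [hc j, KS.mk_zero, KS.mk_eq]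
      exact h0
    · have h1 := he j
      rw [hc j, hf' j, comb_mk, KS.mk_mul, KS.mk_eq] at h1
      exact h1
  obtain ⟨m, hm⟩ := (Filter.eventually_all.2 hev).exists
  -- independence at the index m
  have hyli : LinearIndependent ℚ (fun j => Finsupp.linearCombination ℚ (g m) (f j)) := by
    rw [Fintype.linearIndependent_iff]
    intro d hd
    have h1 : Finsupp.linearCombination ℚ (g m) (∑ j, d j • f j) = 0 := by
      rw [map_sum]
      simpa only [map_smul] using hd
    have h2 : ∀ i ∈ (∑ j, d j • f j).support, i < m := by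
      intro i hi
      by_contra hne
      rw [Finsupp.mem_support_iff] at hi
      apply hi
      rw [Finsupp.finsetSum_apply]
      refine Finset.sum_eq_zero fun j _ => ?_
      rw [Finsupp.smul_apply]
      have : f j i = 0 := by
        by_contra h3
        exact hne ((hm j).2 i (Finsupp.mem_support_iff.2 h3))
      rw [this, smul_zero]
    have h3 := comb_inj (hg m) _ h2 h1
    exact Fintype.linearIndependent_iff.1 hfli d h3
  have hyexp : ∀ j, IsAlgebraic ℚ (Complex.exp (Finsupp.linearCombination ℚ (g m) (f j))) :=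
    fun j => isAlg_exp_comb (f j) fun i hi => hexp m i ((hm j).2 i hi)
  set Am : Submodule Qb ℂ := Submodule.span Qb (Set.range fun i => α i m) with hAm
  set Bm : Submodule Qb ℂ := Submodule.span Qb (Set.range fun i => β i m) with hBm
  have hAf : FiniteDimensional Qb Am := FiniteDimensional.span_of_finite Qb (Set.finite_range _)
  have hBf : FiniteDimensional Qb Bm := FiniteDimensional.span_of_finite Qb (Set.finite_range _)
  have hA1 : Module.finrank Qb Am ≤ Module.finrank (kS φ) A := by
    have := finrank_range_le_card (R := Qb) (fun i => α i m)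
    simpa [Set.finrank] using this
  have hB1 : Module.finrank Qb Bm ≤ Module.finrank (kS φ) B := by
    have := finrank_range_le_card (R := Qb) (fun i => β i m)
    simpa [Set.finrank] using this
  have key := rank_le (fun j => Finsupp.linearCombination ℚ (g m) (f j)) hyli hyexp Am Bm
    hAf hBf (fun j => ⟨∑ i, (c j i m : ℂ) * α i m, ?_, (hm j).1.1, ?_⟩)
  · refine key.trans (Nat.add_le_add ?_ hB1)
    exact Nat.mul_le_mul hA1 (Nat.sub_le_sub_right hA1 1)
  · refine Submodule.sum_mem _ fun i _ => ?_
    have : (c j i m : ℂ) * α i m = c j i m • α i m := rfl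
    rw [this]
    exact Submodule.smul_mem _ _ (Submodule.subset_span ⟨i, rfl⟩)
  · rw [(hm j).1.2]
    refine Submodule.sum_mem _ fun i _ => ?_
    have : (e j i m : ℂ) * β i m = e j i m • β i m := rfl
    rw [this]
    exact Submodule.smul_mem _ _ (Submodule.subset_span ⟨i, rfl⟩)

end Pool.Agent.LogAll
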