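import Pool.Agent.Lib_MP_1eadae_ls.SU
import Pool.Agent.Lib_MP_1eadae_ls.SD

/-!
# Piece SF: one variable
-/

set_option autoImplicit false

namespace Pool.Agent.LogAll

open Polynomial Pool.Agent.LogRel

/-- additive functions on the positive integers with values logarithms of algebraic numbers, linearly
independent over the rationals at the primes -/
def LogFun : Set (ℕ → ℂ) := {l | (∀ a b : ℕ, 0 < a → 0 < b → l (a * b) = l a + l b) ∧
  LinearIndependent ℚ (fun p : Nat.Primes => l (p : ℕ)) ∧
  ∀ p : ℕ, p.Prime → IsAlgebraic ℚ (Complex.exp (l p))}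

private theorem sf_prod {l : ℕ → ℂ} (hl : ∀ a b : ℕ, 0 < a → 0 < b → l (a * b) = l a + l b)
    {n : ℕ} (r : Fin n → ℕ) (hr : ∀ i, 0 < r i) (m : ℕ) (hm : 0 < m) :
    l (m * ∏ i, r i) = l m + ∑ i, l (r i) := by
  have key : ∀ s : Finset (Fin n), l (m * ∏ i ∈ s, r i) = l m + ∑ i ∈ s, l (r i) := by
    intro s
    classical
    induction s using Finset.induction_on with
    | empty => simp
    | insert a s ha ih =>
      rw [Finset.prod_insert ha, Finset.sum_insert ha, mul_left_comm,
        hl _ _ (hr a) (Nat.mul_pos hm (Finset.prod_pos fun i _ => hr i)), ih]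
      ring
  exact key Finset.univ

private theorem sf_ind {l : ℕ → ℂ} (hl : LinearIndependent ℚ (fun p : Nat.Primes => l (p : ℕ)))
    {n : ℕ} (t : Fin n → ℕ × ℕ) (hp : ∀ i, (t i).1.Prime ∧ (t i).2.Prime)
    (hne : ∀ i, (t i).1 ≠ (t i).2) (hd : ∀ i j, i ≠ j → (t i).1 ≠ (t j).1 ∧ (t i).1 ≠ (t j).2 ∧
        (t i).2 ≠ (t j).1 ∧ (t i).2 ≠ (t j).2) :
    LinearIndependent ℚ (fun i : Fin n => l (t i).2 - l (t i).1) := by
  have hinj : Function.Injective (Sum.elim (fun i : Fin n => (⟨(t i).1, (hp i).1⟩ : Nat.Primes))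
      (fun i : Fin n => (⟨(t i).2, (hp i).2⟩ : Nat.Primes))) := by
    rintro (i | i) (j | j) h
    · by_contra hij
      have hij' : i ≠ j := fun h' => hij (by rw [h'])
      exact (hd i j hij').1 (congrArg Subtype.val h)
    · exfalso
      have h' : (t i).1 = (t j).2 := congrArg Subtype.val h
      by_cases hij : i = j
      · subst hij
        exact hne i h'
      · exact (hd i j hij).2.1 h'
    · exfalso
      have h' : (t i).2 = (t j).1 := congrArg Subtype.val h
      by_cases hij : i = j
      · subst hij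
        exact hne i h'.symm
      · exact (hd i j hij).2.2.1 h'
    · by_contra hij
      have hij' : i ≠ j := fun h' => hij (by rw [h'])
      exact (hd i j hij').2.2.2 (congrArg Subtype.val h)
  have h1 := hl.comp _ hinj
  rw [Fintype.linearIndependent_iff] at h1 ⊢
  intro c hc i
  have h2 := h1 (Sum.elim (fun i => - c i) c) (by
    rw [Fintype.sum_sum_type]
    simp only [Sum.elim_inl, Sum.elim_inr, Function.comp_apply, neg_smul,
      Finset.sum_neg_distrib]
    rw [← hc]
    simp only [smul_sub, Finset.sum_sub_distrib]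
    ring) (Sum.inr i)
  simpa using h2

open Classical in
/-- From `uniS` and `natdens`: n = n₀ of `uniS` for ε' = min ε (1 / 2) / 12; for primes t i (all
different) and S a subset of Fin n, l (m ∏ r i) = (l m + ∑ l (t i).1) + ∑ i ∈ S, (l (t i).2 -
l (t i).1); the differences are linearly independent over ℚ and their exponentials are algebraic. -/
theorem one_fun (d D : ℕ) (ε : ℝ) (hε : 0 < ε) : ∃ X₀ : ℕ, ∀ l ∈ LogFun, ∀ (w : Fin d → ℂ) (x : ℕ),
    X₀ ≤ x → ((((Finset.Icc 1 x).filter (fun a =>
        BadK (Submodule.span Qb (Set.range w)) D (l a))).card : ℕ) : ℝ) ≤ ε * x := by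
  have hε' : 0 < min ε (1 / 2) := lt_min hε (by norm_num)
  obtain ⟨n, hn⟩ := uniS d D (ε := min ε (1 / 2) / 12) (by positivity)
  replace hn := hn n le_rfl
  obtain ⟨X₀, hX⟩ := natdens n hε' (min_lt_of_right_lt (by norm_num))
  refine ⟨X₀, fun l hl w x hx => ?_⟩
  obtain ⟨hadd, hind, halg⟩ := hl
  have hmain := hX {a | BadK (Submodule.span Qb (Set.range w)) D (l a)} ?_ x hx
  · refine le_trans (le_of_eq ?_) (le_trans hmain ?_)
    · congr 2
    · exact mul_le_mul_of_nonneg_right (min_le_left _ _) (Nat.cast_nonneg x)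
  intro t hp hne hd m hm
  set lam : ℕ → ℂ := fun k => if h : k < n then l (t ⟨k, h⟩).2 - l (t ⟨k, h⟩).1 else 0 with hlam
  have hlam' : ∀ i : Fin n, lam i = l (t i).2 - l (t i).1 := by
    intro i
    simp only [hlam, i.isLt, dif_pos]
  have h1 := hn lam w (l m + ∑ i, l (t i).1) (by
    have : (fun i : Fin n => lam i) = fun i : Fin n => l (t i).2 - l (t i).1 :=
      funext hlam'
    rw [this]
    exact sf_ind hind t hp hne hd) (by
    intro i hi
    have h2 := hlam' ⟨i, hi⟩
    simp only at h2
    rw [h2, Complex.exp_sub, div_eq_mul_inv]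
    exact (halg _ (hp _).2).mul (halg _ (hp _).1).inv)
  refine le_trans ?_ h1
  rw [Nat.cast_le]
  refine Finset.card_le_card_of_injOn (fun S : Finset (Fin n) => S.map Fin.valEmbedding) ?_
    (fun S _ T _ h => Finset.map_injective _ h)
  intro S hS
  simp only [Finset.coe_filter, Finset.mem_univ, true_and, Set.mem_setOf_eq] at hS
  simp only [Finset.coe_filter, Finset.mem_powerset, Set.mem_setOf_eq]
  refine ⟨?_, ?_⟩
  · intro k hk
    rw [Finset.mem_map] at hk
    obtain ⟨i, _, rfl⟩ := hk
    exact Finset.mem_range.mpr i.isLt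
  · rw [sf_prod hadd (fun i => if i ∈ S then (t i).2 else (t i).1) (by
      intro i
      split_ifs
      · exact (hp i).2.pos
      · exact (hp i).1.pos) m hm] at hS
    convert hS using 1
    rw [Finset.sum_map]
    simp only [Fin.valEmbedding_apply]
    rw [Finset.sum_congr rfl (fun i _ => hlam' i)]
    have h3 : ∑ i : Fin n, l (if i ∈ S then (t i).2 else (t i).1) =
        ∑ i : Fin n, (l (t i).1 + if i ∈ S then l (t i).2 - l (t i).1 else 0) := by
      refine Finset.sum_congr rfl fun i _ => ?_
      split_ifs <;> ring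
    rw [h3, Finset.sum_add_distrib, ← Finset.sum_filter]
    simp only [Finset.filter_mem_eq_inter, Finset.univ_inter]
    ring

end Pool.Agent.LogAll
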