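import Pool.Agent.Lib_MP_1eadae_ls.SZ
import Pool.Agent.Lib_MP_1eadae_ls.SE

/-!
# Piece SU: the uniform theorem for subset sums
-/

set_option autoImplicit false

namespace Pool.Agent.LogAll

open Polynomial Pool.Agent.LogRel

/-- the ring homomorphism from sequences to classes -/
private noncomputable def suH (φ : Ultrafilter ℕ) : (ℕ → ℂ) →+* KS φ where
  toFun := KS.mk φ
  map_one' := KS.mk_one.symm
  map_mul' _ _ := KS.mk_mul.symm
  map_zero' := KS.mk_zero.symm
  map_add' _ _ := KS.mk_add.symm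

private theorem suH_apply (φ : Ultrafilter ℕ) (g : ℕ → ℂ) : suH φ g = KS.mk φ g := rfl

private theorem su_eq_zero {φ : Ultrafilter ℕ} {g : ℕ → ℂ} :
    suH φ g = 0 ↔ ∀ᶠ n in (φ : Filter ℕ), g n = 0 := by
  rw [suH_apply, KS.mk_zero, KS.mk_eq]

/-- coefficients in the span pass to classes -/
private theorem su_mem {d : ℕ} (φ : Ultrafilter ℕ) (w : ℕ → Fin d → ℂ) (g : ℕ → ℂ)
    (hg : ∀ᶠ n in (φ : Filter ℕ), g n ∈ Submodule.span Qb (Set.range (w n))) :
    KS.mk φ g ∈ Submodule.span (kS φ) (Set.range fun b : Fin d => KS.mk φ (fun n => w n b)) := by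
  classical
  have h1 : ∀ n, ∃ c : Fin d → Qb, g n ∈ Submodule.span Qb (Set.range (w n)) →
      ∑ b, c b • w n b = g n := by
    intro n
    by_cases h : g n ∈ Submodule.span Qb (Set.range (w n))
    · obtain ⟨c, hc⟩ := (Submodule.mem_span_range_iff_exists_fun Qb).mp h
      exact ⟨c, fun _ => hc⟩
    · exact ⟨0, fun h' => absurd h' h⟩
  choose c hc using h1
  have h2 : KS.mk φ g = KS.mk φ (fun n => ∑ b, ((c n b : Qb) : ℂ) * w n b) := by
    rw [KS.mk_eq]
    filter_upwards [hg] with n hn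
    rw [← hc n hn]
    rfl
  have h3 : KS.mk φ (fun n => ∑ b, ((c n b : Qb) : ℂ) * w n b) =
      ∑ b, KS.mk φ (fun n => ((c n b : Qb) : ℂ)) * KS.mk φ (fun n => w n b) := by
    have h4 : (fun n => ∑ b, ((c n b : Qb) : ℂ) * w n b) =
        ∑ b, ((fun n => ((c n b : Qb) : ℂ)) * (fun n => w n b) : ℕ → ℂ) := by
      funext n
      rw [Finset.sum_apply]
      rfl
    rw [h4, ← suH_apply, map_sum]
    refine Finset.sum_congr rfl fun b _ => ?_
    rw [map_mul]
    rfl
  rw [h2, h3]
  refine Submodule.sum_mem _ fun b _ => ?_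
  have h5 : KS.mk φ (fun n => ((c n b : Qb) : ℂ)) ∈ kS φ := mem_kS.mpr ⟨fun n => c n b, rfl⟩
  exact Submodule.smul_mem _ (⟨_, h5⟩ : kS φ) (Submodule.subset_span ⟨b, rfl⟩)

/-- roots of polynomials pass to classes -/
private theorem su_bad {d D : ℕ} (φ : Ultrafilter ℕ) (w : ℕ → Fin d → ℂ) (g : ℕ → ℂ)
    (hg : ∀ᶠ n in (φ : Filter ℕ), BadK (Submodule.span Qb (Set.range (w n))) D (g n)) :
    BadK (Submodule.span (kS φ) (Set.range fun b : Fin d => KS.mk φ (fun n => w n b))) D
      (KS.mk φ g) := by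
  classical
  have h1 : ∀ n, ∃ P : ℂ[X], BadK (Submodule.span Qb (Set.range (w n))) D (g n) →
      P ≠ 0 ∧ P.natDegree ≤ D ∧ (∀ i, P.coeff i ∈ Submodule.span Qb (Set.range (w n))) ∧
        P.eval (g n) = 0 := by
    intro n
    by_cases h : BadK (Submodule.span Qb (Set.range (w n))) D (g n)
    · obtain ⟨P, hP⟩ := h
      exact ⟨P, fun _ => hP⟩
    · exact ⟨0, fun h' => absurd h' h⟩
  choose P hP using h1
  let Q : (KS φ)[X] := ∑ i ∈ Finset.range (D + 1), monomial i (KS.mk φ (fun n => (P n).coeff i))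
  have hQc : ∀ i, Q.coeff i = if i ∈ Finset.range (D + 1) then KS.mk φ (fun n => (P n).coeff i)
      else 0 := by
    intro i
    change (∑ i ∈ Finset.range (D + 1), monomial i (KS.mk φ (fun n => (P n).coeff i))).coeff i = _
    rw [finsetSum_coeff]
    simp only [coeff_monomial]
    rw [Finset.sum_ite_eq']
  refine ⟨Q, ?_, ?_, ?_, ?_⟩
  · intro hQ
    have h2 : ∀ i ∈ Finset.range (D + 1), ∀ᶠ n in (φ : Filter ℕ), (P n).coeff i = 0 := by
      intro i hi
      have h3 := hQc i
      rw [hQ, coeff_zero, if_pos hi] at h3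
      exact su_eq_zero.mp (by rw [suH_apply]; exact h3.symm)
    have h4 := (Filter.eventually_all_finset _).mpr h2
    obtain ⟨n, hn1, hn2⟩ := (h4.and hg).exists
    obtain ⟨hP1, hP2, -, -⟩ := hP n hn2
    apply hP1
    ext i
    rw [coeff_zero]
    by_cases hi : i ∈ Finset.range (D + 1)
    · exact hn1 i hi
    · rw [Finset.mem_range] at hi
      exact coeff_eq_zero_of_natDegree_lt (by omega)
  · rw [natDegree_le_iff_coeff_eq_zero]
    intro i hi
    rw [hQc, if_neg]
    rw [Finset.mem_range]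
    omega
  · intro i
    rw [hQc]
    split_ifs with hi
    · apply su_mem
      filter_upwards [hg] with n hn
      exact (hP n hn).2.2.1 i
    · exact Submodule.zero_mem _
  · have h5 : Q.eval (KS.mk φ g) =
        suH φ (fun n => ∑ i ∈ Finset.range (D + 1), (P n).coeff i * (g n) ^ i) := by
      change (∑ i ∈ Finset.range (D + 1), monomial i (KS.mk φ (fun n => (P n).coeff i))).eval _ = _
      rw [eval_finset_sum]
      have h6 : (fun n => ∑ i ∈ Finset.range (D + 1), (P n).coeff i * (g n) ^ i) =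
          ∑ i ∈ Finset.range (D + 1), ((fun n => (P n).coeff i) * g ^ i : ℕ → ℂ) := by
        funext n
        rw [Finset.sum_apply]
        rfl
      rw [h6, map_sum]
      refine Finset.sum_congr rfl fun i _ => ?_
      rw [eval_monomial, map_mul, map_pow]
      rfl
    rw [h5, su_eq_zero]
    filter_upwards [hg] with n hn
    obtain ⟨-, hP2, -, hP4⟩ := hP n hn
    rw [← eval_eq_sum_range' (by omega)]
    exact hP4

/-- conditioning on the part of the subset outside `range z` -/
private theorem su_split {N z : ℕ} (hz : z ≤ N) (B : Set (Finset ℕ)) {ε : ℝ}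
    (h : ε * 2 ^ N < cnt N B) :
    ∃ T : Finset ℕ, (∀ i ∈ T, z ≤ i ∧ i < N) ∧ ε * 2 ^ z < cnt z {S | S ∪ T ∈ B} := by
  classical
  by_contra hcon
  push Not at hcon
  have h1 : cnt N B ≤ ∑ T ∈ (Finset.Ico z N).powerset, cnt z {S | S ∪ T ∈ B} := by
    unfold cnt
    have h2 : (Finset.range N).powerset.filter (fun S => S ∈ B) ⊆
        (Finset.Ico z N).powerset.biUnion (fun T => ((Finset.range z).powerset.filter
          (fun S => S ∈ {S | S ∪ T ∈ B})).image (fun S => S ∪ T)) := by
      intro S hS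
      simp only [Finset.mem_filter, Finset.mem_powerset] at hS
      rw [Finset.mem_biUnion]
      refine ⟨S.filter (fun i => z ≤ i), ?_, ?_⟩
      · rw [Finset.mem_powerset]
        intro i hi
        rw [Finset.mem_filter] at hi
        rw [Finset.mem_Ico]
        exact ⟨hi.2, Finset.mem_range.1 (hS.1 hi.1)⟩
      · rw [Finset.mem_image]
        have h3 : S.filter (fun i => ¬ z ≤ i) ∪ S.filter (fun i => z ≤ i) = S := by
          rw [Finset.union_comm]
          exact Finset.filter_union_filter_not_eq _ _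
        refine ⟨S.filter (fun i => ¬ z ≤ i), ?_, h3⟩
        simp only [Finset.mem_filter, Finset.mem_powerset, Set.mem_ofPred_eq]
        refine ⟨fun i hi => ?_, ?_⟩
        · rw [Finset.mem_filter] at hi
          rw [Finset.mem_range]
          omega
        · rw [h3]
          exact hS.2
    have h4 := Finset.card_le_card h2
    have h5 := h4.trans Finset.card_biUnion_le
    refine le_trans (Nat.cast_le.2 h5) ?_
    rw [Nat.cast_sum]
    exact Finset.sum_le_sum fun T _ => Nat.cast_le.2 Finset.card_image_le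
  have h6 : ∑ T ∈ (Finset.Ico z N).powerset, cnt z {S | S ∪ T ∈ B} ≤
      ∑ T ∈ (Finset.Ico z N).powerset, ε * 2 ^ z := by
    refine Finset.sum_le_sum fun T hT => hcon T fun i hi => ?_
    have := Finset.mem_Ico.1 (Finset.mem_powerset.1 hT hi)
    exact this
  rw [Finset.sum_const, Finset.card_powerset, Nat.card_Ico, nsmul_eq_mul] at h6
  have h7 : ((2 ^ (N - z) : ℕ) : ℝ) * (ε * 2 ^ z) = ε * 2 ^ N := by
    push_cast
    rw [mul_comm, mul_assoc, ← pow_add, Nat.add_sub_cancel' hz]
  rw [h7] at h6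
  linarith

open Classical in
/-- Proof as for `uni` in Lib_MP_1eadae_lu/UU.lean. -/
theorem uniS (d D : ℕ) {ε : ℝ} (hε : 0 < ε) : ∃ n₀ : ℕ, ∀ n, n₀ ≤ n → ∀ (lam : ℕ → ℂ)
    (w : Fin d → ℂ) (u : ℂ), LinearIndependent ℚ (fun i : Fin n => lam i) →
    (∀ i, i < n → IsAlgebraic ℚ (Complex.exp (lam i))) →
    ((((Finset.range n).powerset.filter (fun S =>
      BadK (Submodule.span Qb (Set.range w)) D (∑ i ∈ S, lam i + u))).card : ℕ) : ℝ) ≤
        ε * 2 ^ n := by
  by_contra hcon
  push Not at hcon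
  choose N hN g w u hg hexp hbad using hcon
  let φ : Ultrafilter ℕ := Filter.hyperfilter ℕ
  have hφ : (φ : Filter ℕ) ≤ Filter.atTop := Nat.hyperfilter_le_atTop
  let M : Submodule (kS φ) (KS φ) :=
    Submodule.span (kS φ) (Set.range fun b : Fin d => KS.mk φ (fun n => w n b))
  have hM : FiniteDimensional (kS φ) M := FiniteDimensional.span_of_finite _ (Set.finite_range _)
  have hg' : ∀ n, LinearIndependent ℚ (fun i : Fin n => g n i) := fun n =>
    (hg n).comp (Fin.castLE (hN n)) (Fin.castLE_injective _)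
  have hexp' : ∀ n i, i < n → IsAlgebraic ℚ (Complex.exp (g n i)) := fun n i hi =>
    hexp n i (lt_of_lt_of_le hi (hN n))
  obtain ⟨z, hz⟩ := mainS (lamX φ g) (indX φ hφ g hg') (rankX φ hφ g hg' hexp') M hM D hε
  have h1 : ∀ n, ∃ T : Finset ℕ, (∀ i ∈ T, z ≤ i) ∧ (z ≤ n → ε * 2 ^ z < cnt z {S | S ∪ T ∈
      {S : Finset ℕ | BadK (Submodule.span Qb (Set.range (w n))) D (∑ i ∈ S, g n i + u n)}}) := by
    intro n
    by_cases hn : z ≤ n
    · obtain ⟨T, hT1, hT2⟩ := su_split (hn.trans (hN n))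
        {S : Finset ℕ | BadK (Submodule.span Qb (Set.range (w n))) D (∑ i ∈ S, g n i + u n)}
        (hbad n)
      exact ⟨T, fun i hi => (hT1 i hi).1, fun _ => hT2⟩
    · exact ⟨∅, fun i hi => absurd hi (Finset.notMem_empty i), fun h => absurd h hn⟩
  choose T hT0 hT using h1
  let V : ℕ → Finset (Finset ℕ) := fun n => (Finset.range z).powerset.filter
    (fun S => S ∈ {S | S ∪ T n ∈
      {S : Finset ℕ | BadK (Submodule.span Qb (Set.range (w n))) D (∑ i ∈ S, g n i + u n)}})
  have h4 : (⋃ W ∈ (((Finset.range z).powerset.powerset : Finset (Finset (Finset ℕ))) :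
      Set (Finset (Finset ℕ))), {n | V n = W}) ∈ φ := by
    have h5 : (⋃ W ∈ (((Finset.range z).powerset.powerset : Finset (Finset (Finset ℕ))) :
        Set (Finset (Finset ℕ))), {n | V n = W}) = Set.univ := by
      rw [Set.eq_univ_iff_forall]
      intro n
      rw [Set.mem_iUnion₂]
      refine ⟨V n, ?_, rfl⟩
      rw [Finset.mem_coe, Finset.mem_powerset]
      exact Finset.filter_subset _ _
    rw [h5]
    exact Filter.univ_mem
  rw [Ultrafilter.finite_biUnion_mem_iff (Finset.finite_toSet _)] at h4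
  obtain ⟨W, -, hW⟩ := h4
  have hW' : ∀ᶠ n in (φ : Filter ℕ), V n = W := hW
  have hz' : ∀ᶠ n in (φ : Filter ℕ), z ≤ n := hφ (Filter.eventually_ge_atTop z)
  obtain ⟨n, hn1, hn2⟩ := (hW'.and hz').exists
  have h6 : ε * 2 ^ z < (((V n).card : ℕ) : ℝ) := hT n hn2
  rw [hn1] at h6
  have h11 := hz (KS.mk φ (fun n => ∑ i ∈ T n, g n i + u n))
  have h7 : W ⊆ (Finset.range z).powerset.filter (fun S => BadK M D (∑ i ∈ S, lamX φ g i +
      KS.mk φ (fun n => ∑ i ∈ T n, g n i + u n))) := by
    intro S hS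
    have h8 : ∀ᶠ n in (φ : Filter ℕ), S ∈ V n := by
      filter_upwards [hW'] with n hn
      rw [hn]
      exact hS
    obtain ⟨n', hn'⟩ := h8.exists
    have hSz : S ∈ (Finset.range z).powerset := (Finset.mem_filter.1 hn').1
    refine Finset.mem_filter.2 ⟨hSz, ?_⟩
    have hdisj : ∀ n, Disjoint S (T n) := by
      intro n
      rw [Finset.disjoint_left]
      intro i hi hiT
      have h9 := Finset.mem_range.1 (Finset.mem_powerset.1 hSz hi)
      have h10 := hT0 n i hiT
      omega
    have h9 : ∑ i ∈ S, lamX φ g i + KS.mk φ (fun n => ∑ i ∈ T n, g n i + u n) =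
        KS.mk φ (fun n => ∑ i ∈ S ∪ T n, g n i + u n) := by
      have h12 : ∑ i ∈ S, lamX φ g i = KS.mk φ (fun n => ∑ i ∈ S, g n i) := by
        have h13 : (fun n => ∑ i ∈ S, g n i) = ∑ i ∈ S, (fun n => g n i : ℕ → ℂ) := by
          funext n
          rw [Finset.sum_apply]
        rw [h13, ← suH_apply, map_sum]
        rfl
      rw [h12, KS.mk_add]
      congr 1
      funext n
      rw [Finset.sum_union (hdisj n)]
      ring
    rw [h9]
    apply su_bad
    filter_upwards [h8] with n hn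
    have := (Finset.mem_filter.1 hn).2
    exact this
  have h14 : ((W.card : ℕ) : ℝ) ≤ _ := Nat.cast_le.2 (Finset.card_le_card h7)
  linarith

end Pool.Agent.LogAll
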