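import Pool.Agent.Lib_MP_1eadae_ls.SA
import Pool.Agent.Lib_MP_1eadae_lu.UZ

/-!
# Piece SZ: the main theorem for subset sums in an abstract field
-/

set_option autoImplicit false

namespace Pool.Agent.LogAll

open Polynomial Filter Topology

/-! ### counting subsets -/

open Classical in
/-- number of the subsets of `range z` which belong to `A` -/
noncomputable def cnt (z : ℕ) (A : Set (Finset ℕ)) : ℝ :=
  ((((Finset.range z).powerset.filter (fun S => S ∈ A)).card : ℕ) : ℝ)

theorem cnt_mono {z : ℕ} {A B : Set (Finset ℕ)} (h : A ⊆ B) : cnt z A ≤ cnt z B := by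
  classical
  unfold cnt
  exact_mod_cast Finset.card_le_card
    (Finset.monotone_filter_right _ fun S _ hS => h hS)

theorem cnt_union_le (z : ℕ) (A B : Set (Finset ℕ)) : cnt z (A ∪ B) ≤ cnt z A + cnt z B := by
  classical
  unfold cnt
  have h1 := Finset.card_union_le ((Finset.range z).powerset.filter (fun S => S ∈ A))
    ((Finset.range z).powerset.filter (fun S => S ∈ B))
  rw [← Nat.cast_add]
  refine Nat.cast_le.2 (le_trans (Finset.card_le_card fun S hS => ?_) h1)
  simp only [Finset.mem_filter] at hS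
  rw [Finset.mem_union, Finset.mem_filter, Finset.mem_filter]
  exact hS.2.elim (fun h => Or.inl ⟨hS.1, h⟩) fun h => Or.inr ⟨hS.1, h⟩

theorem cnt_empty (z : ℕ) : cnt z ∅ = 0 := by
  classical
  unfold cnt
  simp

theorem cnt_biUnion_le (z : ℕ) {ι : Type*} (t : Finset ι) (A : ι → Set (Finset ℕ)) :
    cnt z (⋃ i ∈ t, A i) ≤ ∑ i ∈ t, cnt z (A i) := by
  classical
  induction t using Finset.induction_on with
  | empty => simp [cnt_empty]
  | insert i t hit ih =>
    rw [Finset.set_biUnion_insert, Finset.sum_insert hit]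
    have h1 := cnt_union_le z (A i) (⋃ j ∈ t, A j)
    linarith

/-- number of the elements of `T` below `z` -/
theorem eventually_card_ge {T : Set ℕ} (hT : T.Infinite) (t₀ : ℕ) :
    ∀ᶠ z in atTop, ∀ [DecidablePred (· ∈ T)], t₀ ≤ ((Finset.range z).filter (· ∈ T)).card := by
  obtain ⟨s, hs, hcard⟩ := hT.exists_subset_card_eq t₀
  filter_upwards [eventually_ge_atTop (s.sup id + 1)] with z hz _
  rw [← hcard]
  refine Finset.card_le_card fun i hi => ?_
  rw [Finset.mem_filter, Finset.mem_range]
  have : i ≤ s.sup id := Finset.le_sup (f := id) hi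
  exact ⟨by omega, hs hi⟩

theorem not_fin_lt {V : Type} [AddCommGroup V] [Module ℚ V] (f : ℕ → V)
    (hS : {i | f i ≠ 0}.Infinite) {q : ℝ} (hq : 0 < q) :
    ∀ᶠ z in atTop, ∀ c : V, cnt z {S | ∑ i ∈ S, f i = c} < q * 2 ^ z := by
  classical
  obtain ⟨t₀, ht⟩ := concS hq
  filter_upwards [eventually_card_ge hS t₀] with z hz c
  have h1 := ht z V f c (by simpa using hz)
  unfold cnt
  simpa using h1

theorem exists_extS {k K : Type} [Field k] [Field K] [Algebra k K] [CharZero k] [CharZero K]
    [IsAlgClosed K] (lam : ℕ → K)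
    (F : IntermediateField k K) (D : ℕ) {ε : ℝ} (hε : 0 < ε) (u : ℕ → K)
    (V : ℕ → Set (Finset ℕ)) (hV : ∀ z, ε * 2 ^ z ≤ cnt z (V z))
    (hB : ∀ z, ∀ S ∈ V z, ∃ P : F[X], P ≠ 0 ∧ P.natDegree ≤ D ∧
      aeval (∑ i ∈ S, lam i + u z) P = 0) :
    ∃ E : IntermediateField F K, FiniteDimensional F E ∧ {p : ℕ | lam p ∉ E}.Finite := by
  classical
  have hΩ : ∀ z, ∀ S ∈ V z, ∑ i ∈ S, lam i + u z ∈ algebraicClosure F K := by
    intro z S hS
    obtain ⟨P, hP, _, hP2⟩ := hB z S hS
    exact mem_algebraicClosure_iff.2 ⟨P, hP, hP2⟩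
  have hS0 : {p : ℕ | lam p ∉ qsubK (algebraicClosure F K).toSubfield}.Finite := by
    by_contra hns
    let f : ℕ → K ⧸ qsubK (algebraicClosure F K).toSubfield := fun a => Submodule.mkQ _ (lam a)
    have hns' : {p | f p ≠ 0}.Infinite := by
      have : {p | f p ≠ 0} = {p : ℕ | lam p ∉ qsubK (algebraicClosure F K).toSubfield} := by
        ext p
        simp [f]
      rw [this]
      exact hns
    obtain ⟨z, hz⟩ := (not_fin_lt f hns' hε).exists
    have h1 := hz (-(Submodule.mkQ _ (u z)))
    have h2 : cnt z (V z) ≤ cnt z {S | ∑ i ∈ S, f i = -(Submodule.mkQ _ (u z))} := by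
      refine cnt_mono fun S hS => ?_
      have h3 := hΩ z S hS
      have h4 : Submodule.mkQ (qsubK (algebraicClosure F K).toSubfield)
          (∑ i ∈ S, lam i + u z) = 0 := by
        rw [Submodule.mkQ_apply, Submodule.Quotient.mk_eq_zero]
        exact h3
      rw [map_add, map_sum] at h4
      exact eq_neg_of_add_eq_zero_left h4
    have h3 := hV z
    linarith
  have : IsGalois F (algebraicClosure F K) := by
    have : Normal F (algebraicClosure F K) := IsAlgClosure.normal F _
    exact {}
  let x : ℕ → algebraicClosure F K := fun p =>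
    if h : lam p ∈ algebraicClosure F K then ⟨_, h⟩ else 0
  have fin_of : ∀ T : Set ℕ, Summable (T.indicator fun _ : ℕ => (1 : ℝ)) → T.Finite := by
    intro T hT
    by_contra hinf
    have h1 := hT.tendsto_cofinite_zero
    have h2 : ∀ᶠ i in cofinite, T.indicator (fun _ : ℕ => (1 : ℝ)) i < 1 :=
      h1.eventually (gt_mem_nhds one_pos)
    rw [Filter.eventually_cofinite] at h2
    refine hinf (h2.subset fun i hi => ?_)
    simp only [Set.mem_ofPred_eq, not_lt]
    rw [Set.indicator_of_mem hi]
  have of_fin : ∀ T : Set ℕ, T.Finite → Summable (T.indicator fun _ : ℕ => (1 : ℝ)) := by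
    intro T hT
    refine summable_of_hasFiniteSupport ?_
    exact hT.subset (by
      intro i hi
      by_contra h
      exact hi (Set.indicator_of_notMem h _))
  have key : ∀ σ : Fin (D + 1) → (algebraicClosure F K ≃ₐ[F] algebraicClosure F K),
      ∃ i j, i ≠ j ∧ Summable ({p | σ i (x p) ≠ σ j (x p)}.indicator fun _ : ℕ => (1 : ℝ)) := by
    intro σ
    by_contra hcon
    push Not at hcon
    have hφ : ∀ i j : Fin (D + 1), ∃ φ : K →ₗ[ℚ] K,
        ∀ z : algebraicClosure F K, φ (z : K) = (σ i z : K) - (σ j z : K) := by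
      intro i j
      let g0 : (qsubK (algebraicClosure F K).toSubfield) →+ K :=
        { toFun := fun z => ((σ i ⟨z.1, z.2⟩ : algebraicClosure F K) : K) -
            ((σ j ⟨z.1, z.2⟩ : algebraicClosure F K) : K)
          map_zero' := by
            have : (⟨0, (algebraicClosure F K).zero_mem⟩ : algebraicClosure F K) = 0 := rfl
            simp only [ZeroMemClass.coe_zero]
            rw [this]
            simp
          map_add' := by
            intro y z
            have : (⟨((y + z : qsubK (algebraicClosure F K).toSubfield) : K), (y + z).2⟩ :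
                algebraicClosure F K) = ⟨y.1, y.2⟩ + ⟨z.1, z.2⟩ := rfl
            rw [this, map_add, map_add]
            push_cast
            ring }
      obtain ⟨φ, hφ⟩ := LinearMap.exists_extend (g0.toRatLinearMap)
      refine ⟨φ, fun z => ?_⟩
      have := LinearMap.congr_fun hφ (⟨z.1, z.2⟩ : qsubK (algebraicClosure F K).toSubfield)
      exact this
    choose φ hφ using hφ
    have hns : ∀ i j : Fin (D + 1), i ≠ j → {p : ℕ | φ i j (lam p) ≠ 0}.Infinite := by
      intro i j hij h1
      refine hcon i j hij (of_fin _ (h1.subset ?_))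
      intro p hp
      by_cases hlog : lam p ∈ algebraicClosure F K
      · have hx : x p = ⟨_, hlog⟩ := dif_pos hlog
        have h2 := hφ i j (x p)
        have h3 : ((x p : algebraicClosure F K) : K) = lam p := by rw [hx]
        rw [h3] at h2
        change φ i j (lam p) ≠ 0
        rw [h2]
        intro h4
        exact hp (Subtype.ext (sub_eq_zero.1 h4))
      · have hx : x p = 0 := dif_neg hlog
        exfalso
        apply hp
        rw [hx]
        simp
    let s : Finset (Fin (D + 1) × Fin (D + 1)) := Finset.univ.filter fun t => t.1 ≠ t.2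
    have hq : 0 < ε / (s.card + 1) := by positivity
    have hev : ∀ᶠ z in atTop, ∀ t ∈ s, ∀ c : K,
        cnt z {S | ∑ i ∈ S, φ t.1 t.2 (lam i) = c} < ε / (s.card + 1) * 2 ^ z := by
      rw [Filter.eventually_all_finset]
      intro t ht
      have ht' : t.1 ≠ t.2 := by simpa [s] using ht
      exact not_fin_lt (fun a => φ t.1 t.2 (lam a)) (hns _ _ ht') hq
    obtain ⟨z, hz⟩ := hev.exists
    let A : Fin (D + 1) × Fin (D + 1) → Set (Finset ℕ) := fun t =>
      {S | ∑ i ∈ S, φ t.1 t.2 (lam i) = -(φ t.1 t.2 (u z))}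
    have hsub : V z ⊆ ⋃ t ∈ s, A t := by
      intro a haB
      by_contra haN
      obtain ⟨P, hP, hPD, hPa⟩ := hB z a haB
      let y : algebraicClosure F K := ⟨_, hΩ z a haB⟩
      have hPy : aeval y P = 0 := by
        have h1 : aeval ((algebraicClosure F K).val y) P =
            (algebraicClosure F K).val (aeval y P) := Polynomial.aeval_algHom_apply _ _ _
        have h2 : (algebraicClosure F K).val (aeval y P) = 0 := by
          rw [← h1]; exact hPa
        exact (map_eq_zero _).1 h2
      have hroot : ∀ i, aeval (σ i y) P = 0 := by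
        intro i
        have h1 : aeval ((σ i).toAlgHom y) P = (σ i).toAlgHom (aeval y P) :=
          Polynomial.aeval_algHom_apply _ _ _
        rw [hPy, map_zero] at h1
        exact h1
      have hinj : Function.Injective fun i => σ i y := by
        intro i j hij
        by_contra hne
        apply haN
        have hmem : ((i, j) : Fin (D + 1) × Fin (D + 1)) ∈ s := by simp [s, hne]
        refine Set.mem_biUnion hmem ?_
        have h5 := hφ i j y
        have hij' : σ i y = σ j y := hij
        rw [hij', sub_self] at h5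
        have h6 : ((y : algebraicClosure F K) : K) = ∑ i ∈ a, lam i + u z := rfl
        rw [h6, map_add, map_sum] at h5
        exact eq_neg_of_add_eq_zero_left h5
      have hcard : D + 1 ≤ (P.aroots (algebraicClosure F K)).toFinset.card := by
        have h1 : (Finset.univ.image fun i => σ i y) ⊆
            (P.aroots (algebraicClosure F K)).toFinset := by
          intro z hz
          rw [Finset.mem_image] at hz
          obtain ⟨i, _, rfl⟩ := hz
          rw [Multiset.mem_toFinset, Polynomial.mem_aroots]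
          exact ⟨hP, hroot i⟩
        have h2 := Finset.card_le_card h1
        rw [Finset.card_image_of_injective _ hinj, Finset.card_univ, Fintype.card_fin] at h2
        exact h2
      have hcard2 : (P.aroots (algebraicClosure F K)).toFinset.card ≤ D := by
        refine le_trans (Multiset.toFinset_card_le _) ?_
        refine le_trans (Polynomial.card_roots' _) ?_
        rw [Polynomial.natDegree_map]
        exact hPD
      omega
    have h1 := cnt_mono (z := z) hsub
    have h2 := cnt_biUnion_le z s A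
    have h3 : ∑ t ∈ s, cnt z (A t) ≤ ∑ t ∈ s, ε / (s.card + 1) * 2 ^ z :=
      Finset.sum_le_sum fun t ht => (hz t ht _).le
    have h4 : ∑ t ∈ s, ε / ((s.card : ℝ) + 1) * 2 ^ z < ε * 2 ^ z := by
      rw [Finset.sum_const, nsmul_eq_mul, ← mul_assoc]
      refine mul_lt_mul_of_pos_right ?_ (by positivity)
      rw [mul_div_assoc', div_lt_iff₀ (by positivity)]
      nlinarith
    have h5 := hV z
    linarith
  obtain ⟨E, hE, hsum⟩ := galois_piece x (fun _ => (1 : ℝ)) (fun _ => zero_le_one) D key
  refine ⟨E.map (algebraicClosure F K).val, ?_, ?_⟩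
  · have e : E ≃ₐ[F] E.map (algebraicClosure F K).val := IntermediateField.equivMap E _
    exact LinearEquiv.finiteDimensional e.toLinearEquiv
  · refine (hS0.union (fin_of _ hsum)).subset ?_
    intro p hp
    by_cases hlog : lam p ∈ algebraicClosure F K
    · refine Or.inr ?_
      intro hxE
      apply hp
      have hx : x p = ⟨_, hlog⟩ := dif_pos hlog
      exact ⟨x p, hxE, by rw [hx]; rfl⟩
    · exact Or.inl hlog

theorem sum_mem_span {K : Type} [Field K] [CharZero K] (lam : ℕ → K) (S : Finset ℕ) :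
    ∑ i ∈ S, lam i ∈ Submodule.span ℚ (Set.range lam) :=
  Submodule.sum_mem _ fun i _ => Submodule.subset_span ⟨i, rfl⟩

/-- at most `dim H` of the `lam i` lie in `H` -/
theorem card_lam_le {K : Type} [Field K] [CharZero K] (lam : ℕ → K) (hind : LinearIndependent ℚ lam)
    (H : Submodule ℚ K) (hH : FiniteDimensional ℚ H) (S : Finset ℕ)
    (hS : ∀ p ∈ S, lam p ∈ H) : S.card ≤ Module.finrank ℚ H := by
  let v : S → H := fun p => ⟨lam p, hS p p.2⟩
  have hv : LinearIndependent ℚ v := by
    have h2 : LinearIndependent ℚ (H.subtype ∘ v) :=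
      hind.comp (fun p : S => (p : ℕ)) Subtype.val_injective
    exact h2.of_comp
  have := hv.fintype_card_le_finrank
  simpa using this

open Classical in
theorem mainS {k K : Type} [Field k] [Field K] [Algebra k K] [CharZero k] [CharZero K]
    [IsAlgClosed K] (lam : ℕ → K) (hind : LinearIndependent ℚ lam)
    (hrank : ∀ A B : Submodule k K, FiniteDimensional k A → FiniteDimensional k B →
      ∃ n₀ : ℕ, ∀ (n : ℕ) (x : Fin n → K), (∀ j, x j ∈ Submodule.span ℚ (Set.range lam)) →
        LinearIndependent ℚ x → (∀ j, ∃ a ∈ A, a ≠ 0 ∧ a * x j ∈ B) → n ≤ n₀)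
    (M : Submodule k K) (hM : FiniteDimensional k M) (D : ℕ) {ε : ℝ} (hε : 0 < ε) :
    ∃ z : ℕ, ∀ u : K, ((((Finset.range z).powerset.filter
      (fun S => BadK M D (∑ i ∈ S, lam i + u))).card : ℕ) : ℝ) < ε * 2 ^ z := by
  by_contra hcon
  push Not at hcon
  choose u hu using hcon
  set M₀ : Submodule k K := M ⊔ Submodule.span k {1} with hM₀
  have hM₀fd : FiniteDimensional k M₀ := by
    have := hM
    infer_instance
  have h1M₀ : (1 : K) ∈ M₀ := Submodule.mem_sup_right (Submodule.mem_span_singleton_self 1)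
  let V : ℕ → Set (Finset ℕ) := fun z => {S | BadK M D (∑ i ∈ S, lam i + u z)}
  have huV : ∀ z, ε * 2 ^ z ≤ cnt z (V z) := by
    intro z
    have h1 := hu z
    unfold cnt
    exact h1
  let F : IntermediateField k K := IntermediateField.adjoin k (M₀ : Set K)
  have hMF : ∀ z ∈ M, z ∈ F := fun z hz =>
    IntermediateField.subset_adjoin _ _ (show z ∈ (M₀ : Set K) from Submodule.mem_sup_left hz)
  have hB : ∀ z, ∀ S ∈ V z, ∃ P : F[X], P ≠ 0 ∧ P.natDegree ≤ D ∧
      aeval (∑ i ∈ S, lam i + u z) P = 0 := by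
    rintro z a ⟨P, hP, hPD, hPW, hPa⟩
    obtain ⟨Q, hQ⟩ : ∃ Q : F[X], Q.map (algebraMap F K) = P := by
      have : P ∈ Polynomial.lifts (algebraMap F K) := by
        rw [Polynomial.lifts_iff_coeff_lifts]
        intro i
        exact ⟨⟨_, hMF _ (hPW i)⟩, rfl⟩
      exact (Polynomial.mem_lifts _).1 this
    refine ⟨Q, ?_, ?_, ?_⟩
    · rintro rfl
      rw [Polynomial.map_zero] at hQ
      exact hP hQ.symm
    · rw [← hQ, Polynomial.natDegree_map] at hPD
      exact hPD
    · rw [Polynomial.aeval_def, ← Polynomial.eval_map, hQ]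
      exact hPa
  obtain ⟨E, hE, hES⟩ := exists_extS lam F D hε u V huV hB
  set s : Finset ℕ := hES.toFinset with hs
  have hne : ∀ z, ((V z) ∩ {S | S ⊆ Finset.range z}).Nonempty := by
    intro z
    rw [Set.nonempty_iff_ne_empty]
    intro h
    have h1 := huV z
    have h2 : cnt z (V z) = 0 := by
      unfold cnt
      have : (Finset.range z).powerset.filter (fun S => S ∈ V z) = ∅ := by
        rw [Finset.filter_eq_empty_iff]
        intro S hS hSV
        have : S ∈ (V z) ∩ {S | S ⊆ Finset.range z} := ⟨hSV, Finset.mem_powerset.1 hS⟩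
        rw [h] at this
        exact this
      rw [this]
      simp
    have h3 : 0 < ε * 2 ^ z := by positivity
    linarith
  choose v₀ hv₀ using hne
  -- the fixed finitely generated field
  let Ω := algebraicClosure F K
  let Ls : Submodule ℚ K := Submodule.span ℚ (lam '' (s : Set ℕ))
  have hLs : FiniteDimensional ℚ Ls := FiniteDimensional.span_of_finite ℚ (s.finite_toSet.image _)
  let Q1 : Submodule ℚ K := Ls ⊓ qsubK Ω.toSubfield
  have hQ1 : FiniteDimensional ℚ Q1 := by
    have := hLs
    exact Submodule.finiteDimensional_inf_left _ _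
  obtain ⟨S1, hS1⟩ := (Submodule.fg_iff_finiteDimensional Q1).2 hQ1
  obtain ⟨S2, hS2⟩ : (⊤ : Submodule F E).FG := Module.Finite.fg_top
  let M₁ : Submodule k K := M₀ ⊔ Submodule.span k ((S1 : Set K) ∪ ((↑) : E → K) '' (S2 : Set E))
  have hM₁fd : FiniteDimensional k M₁ := by
    have := hM₀fd
    have : FiniteDimensional k
        (Submodule.span k ((S1 : Set K) ∪ ((↑) : E → K) '' (S2 : Set E))) :=
      FiniteDimensional.span_of_finite k
        (S1.finite_toSet.union (S2.finite_toSet.image _))
    infer_instance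
  let F₁ : IntermediateField k K := IntermediateField.adjoin k (M₁ : Set K)
  have hmem1 : ∀ z ∈ M₁, z ∈ F₁ := fun z hz => IntermediateField.subset_adjoin _ _ hz
  have hFF1 : F ≤ F₁ :=
    IntermediateField.adjoin.mono k _ _ fun z hz => Submodule.mem_sup_left hz
  have hS1F : ∀ z ∈ S1, z ∈ F₁ := fun z hz =>
    hmem1 z (Submodule.mem_sup_right (Submodule.subset_span (Or.inl hz)))
  have hEF : ∀ y : E, (y : K) ∈ F₁ := by
    intro y
    have hy : y ∈ Submodule.span F (S2 : Set E) := by rw [hS2]; trivial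
    induction hy using Submodule.span_induction with
    | mem y hy =>
      exact hmem1 _ (Submodule.mem_sup_right (Submodule.subset_span (Or.inr ⟨y, hy, rfl⟩)))
    | zero => exact F₁.zero_mem
    | add y z _ _ hy hz => exact F₁.add_mem hy hz
    | smul c y _ hy =>
      have : ((c • y : E) : K) = (c : K) * (y : K) := rfl
      rw [this]
      exact F₁.mul_mem (hFF1 c.2) hy
  have hQ1F : ∀ z ∈ Q1, z ∈ F₁ := by
    have : Q1 ≤ qsubK F₁.toSubfield := by
      rw [← hS1, Submodule.span_le]
      exact hS1F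
    exact this
  have hEΩ : ∀ e : K, e ∈ E → e ∈ Ω := by
    intro e he
    have h2 : IsAlgebraic F (⟨e, he⟩ : E) := Algebra.IsAlgebraic.isAlgebraic _
    have h3 : IsAlgebraic F ((⟨e, he⟩ : E) : K) := h2.algHom E.val
    exact mem_algebraicClosure_iff.2 h3
  have hVΩ : ∀ z, ∀ S ∈ V z, ∑ i ∈ S, lam i + u z ∈ Ω := by
    intro z v hv
    obtain ⟨P, hP, _, hPa⟩ := hB z v hv
    exact mem_algebraicClosure_iff.2 ⟨P, hP, hPa⟩
  have hdec : ∀ S : Finset ℕ, ∃ a ∈ Ls, ∃ e ∈ E, ∑ i ∈ S, lam i = a + e := by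
    intro S
    have h1 : ∑ i ∈ S, lam i ∈ Ls ⊔ qsubK E.toSubfield := by
      refine Submodule.sum_mem _ fun p _ => ?_
      by_cases hpE : lam p ∈ E
      · exact Submodule.mem_sup_right hpE
      · refine Submodule.mem_sup_left (Submodule.subset_span ⟨p, ?_, rfl⟩)
        rw [hs]
        exact_mod_cast hES.mem_toFinset.2 hpE
    obtain ⟨a, ha, e, he, hae⟩ := Submodule.mem_sup.1 h1
    exact ⟨a, ha, e, he, hae.symm⟩
  have hdiff : ∀ z, ∀ S ∈ V z, ∑ i ∈ S, lam i - ∑ i ∈ v₀ z, lam i ∈ F₁ := by
    intro z v hv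
    obtain ⟨a, ha, e, he, hae⟩ := hdec v
    obtain ⟨a', ha', e', he', hae'⟩ := hdec (v₀ z)
    have h1 : ∑ i ∈ v, lam i - ∑ i ∈ v₀ z, lam i = (a - a') + (e - e') := by
      rw [hae, hae']; ring
    have h2 : a - a' ∈ Ω := by
      have h3 : a - a' = ((∑ i ∈ v, lam i + u z) - (∑ i ∈ v₀ z, lam i + u z)) - (e - e') := by
        rw [hae, hae']; ring
      rw [h3]
      exact Ω.sub_mem (Ω.sub_mem (hVΩ z v hv) (hVΩ z _ (hv₀ z).1))
        (Ω.sub_mem (hEΩ e he) (hEΩ e' he'))
    rw [h1]
    exact F₁.add_mem (hQ1F _ ⟨Ls.sub_mem ha ha', h2⟩) (hEF ⟨e - e', E.sub_mem he he'⟩)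
  -- bounded height of the differences
  obtain ⟨N, hNfd, hN⟩ := height_diff M₀ M₁ le_sup_left hM₁fd h1M₀
  have hAfd : FiniteDimensional k (M₀ * M₀ : Submodule k K) := by
    have h2 : M₀.FG := (Submodule.fg_iff_finiteDimensional _).2 hM₀fd
    exact (Submodule.fg_iff_finiteDimensional _).1 (h2.mul h2)
  obtain ⟨n₀, hn₀⟩ := hrank (M₀ * M₀) N hAfd hNfd
  have hbad : ∀ z, ∀ S ∈ V z, BadK M₀ D (∑ i ∈ S, lam i + u z) := by
    rintro z v ⟨P, hP, hPD, hPM, hPe⟩
    exact ⟨P, hP, hPD, fun i => Submodule.mem_sup_left (hPM i), hPe⟩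
  have hH : ∀ z, FiniteDimensional ℚ
        (Submodule.span ℚ ((fun S : Finset ℕ => ∑ i ∈ S, lam i - ∑ i ∈ v₀ z, lam i) '' V z)) ∧
      Module.finrank ℚ (Submodule.span ℚ
        ((fun S : Finset ℕ => ∑ i ∈ S, lam i - ∑ i ∈ v₀ z, lam i) '' V z)) ≤ n₀ := by
    intro z
    refine finite_spanK _ n₀ fun n mu hl hmu => ?_
    choose v hv hvmu using hmu
    refine hn₀ n mu (fun j => ?_) hl fun j => ?_
    · rw [← hvmu j]
      exact Submodule.sub_mem _ (sum_mem_span lam _) (sum_mem_span lam _)
    · have h1 : (∑ i ∈ v j, lam i + u z) - (∑ i ∈ v₀ z, lam i + u z) = mu j := by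
        rw [← hvmu j]; ring
      obtain ⟨m, hm, hm0, hmN⟩ := hN D (∑ i ∈ v j, lam i + u z) (∑ i ∈ v₀ z, lam i + u z)
        (by rw [h1, ← hvmu j]; exact hdiff z _ (hv j)) (hbad z _ (hv j)) (hbad z _ (hv₀ z).1)
      rw [h1] at hmN
      exact ⟨m, hm, hm0, hmN⟩
  -- concentration
  obtain ⟨t₀, ht₀⟩ := concS hε
  let z : ℕ := t₀ + n₀
  obtain ⟨hHfd, hHle⟩ := hH z
  set H : Submodule ℚ K := Submodule.span ℚ
    ((fun S : Finset ℕ => ∑ i ∈ S, lam i - ∑ i ∈ v₀ z, lam i) '' V z) with hHdef
  let f : ℕ → K ⧸ H := fun a => H.mkQ (lam a)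
  have hsub : V z ⊆ {S | ∑ i ∈ S, f i = ∑ i ∈ v₀ z, f i} := by
    intro v hv
    change ∑ i ∈ v, f i = ∑ i ∈ v₀ z, f i
    simp only [f]
    rw [← map_sum, ← map_sum, ← sub_eq_zero, ← map_sub, Submodule.mkQ_apply,
      Submodule.Quotient.mk_eq_zero]
    exact Submodule.subset_span ⟨v, hv, rfl⟩
  have h6 : ((Finset.range z).filter (fun p => ¬ f p ≠ 0)).card ≤ Module.finrank ℚ H := by
    refine card_lam_le lam hind H hHfd _ fun p hp => ?_
    rw [Finset.mem_filter, not_not] at hp
    have h7 := hp.2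
    simp only [f] at h7
    rw [Submodule.mkQ_apply, Submodule.Quotient.mk_eq_zero] at h7
    exact h7
  have h8 : ((Finset.range z).filter (fun p => f p ≠ 0)).card +
      ((Finset.range z).filter (fun p => ¬ f p ≠ 0)).card = z := by
    rw [Finset.card_filter_add_card_filter_not, Finset.card_range]
  have h9 : t₀ ≤ ((Finset.range z).filter (fun p => f p ≠ 0)).card := by
    have h10 := h6.trans hHle
    have hz : z = t₀ + n₀ := rfl
    omega
  have h11 := ht₀ z (K ⧸ H) f (∑ i ∈ v₀ z, f i) h9
  have h12 := huV z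
  have h13 : cnt z (V z) ≤ cnt z {S | ∑ i ∈ S, f i = ∑ i ∈ v₀ z, f i} := cnt_mono hsub
  have h14 : cnt z {S | ∑ i ∈ S, f i = ∑ i ∈ v₀ z, f i} < ε * 2 ^ z := by
    unfold cnt
    exact h11
  linarith

end Pool.Agent.LogAll
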